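import Pool.Agent.H4.CC.Lab

/-!
# Groups acting on median graphs: the labelling by the orbits of the hyperplanes under a normal subgroup

Owner helper4.
-/

set_option autoImplicit false

namespace Pool.Agent.H4.CC

variable {V G : Type} [Group G] [MulAction G V] {X : SimpleGraph V}

/-- the group acts by automorphisms of the graph -/
def Acts (G : Type) {V : Type} [Group G] [MulAction G V] (X : SimpleGraph V) : Prop :=
  ∀ (g : G) (x y : V), X.Adj x y → X.Adj (g • x) (g • y)

/-- the oriented edges `p` and `q` cross the same hyperplane in the same direction up to an element of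
the subgroup `K` -/
def KPar (X : SimpleGraph V) (K : Subgroup G) (p q : V × V) : Prop := ∃ k ∈ K, Par X (k • p) q

/-- The subgroup `K` acts freely on the vertices and specially: the hyperplanes of the quotient by `K` are
two-sided or inverted, do not cross themselves and do not osculate themselves directly (`osc`), and two
hyperplanes of the quotient which cross do not osculate (`inter`). -/
structure Special (X : SimpleGraph V) (K : Subgroup G) : Prop where
  free : ∀ k ∈ K, ∀ x : V, k • x = x → k = 1
  osc : ∀ x y z : V, X.Adj x y → X.Adj x z → KPar X K (x, y) (x, z) → y = z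
  inter : ∀ x y z : V, X.Adj x y → X.Adj x z → ∀ a b c d : V, Sq X a b c d →
    KPar X K (a, b) (x, y) → KPar X K (a, d) (x, z) → ∃ u, Sq X x y u z

theorem Acts.sq (h : Acts G X) (g : G) {a b c d : V} (hs : Sq X a b c d) :
    Sq X (g • a) (g • b) (g • c) (g • d) :=
  ⟨h g _ _ hs.1, h g _ _ hs.2.1, h g _ _ hs.2.2.1, h g _ _ hs.2.2.2.1,
    fun e => hs.2.2.2.2.1 (MulAction.injective g e), fun e => hs.2.2.2.2.2 (MulAction.injective g e)⟩

theorem Acts.par (h : Acts G X) (g : G) {p q : V × V} (hp : Par X p q) : Par X (g • p) (g • q) := by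
  induction hp with
  | rel p q hs => exact Relation.EqvGen.rel _ _ (h.sq g hs)
  | refl p => exact Relation.EqvGen.refl _
  | symm p q _ ih => exact ih.symm _ _
  | trans p q r _ _ ih1 ih2 => exact ih1.trans _ _ _ ih2

theorem par_swap {p q : V × V} (hp : Par X p q) : Par X p.swap q.swap := by
  induction hp with
  | rel p q hs => exact Relation.EqvGen.rel _ _ (hs.flip.rot.rot.rot)
  | refl p => exact Relation.EqvGen.refl _
  | symm p q _ ih => exact ih.symm _ _
  | trans p q r _ _ ih1 ih2 => exact ih1.trans _ _ _ ih2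

theorem kpar_equiv (h : Acts G X) (K : Subgroup G) : Equivalence (KPar X K) where
  refl p := ⟨1, K.one_mem, by rw [one_smul]; exact Relation.EqvGen.refl _⟩
  symm := by
    rintro p q ⟨k, hk, hp⟩
    refine ⟨k⁻¹, K.inv_mem hk, ?_⟩
    have := h.par k⁻¹ hp
    rw [inv_smul_smul] at this
    exact this.symm _ _
  trans := by
    rintro p q r ⟨k, hk, hp⟩ ⟨k', hk', hq⟩
    refine ⟨k' * k, K.mul_mem hk' hk, ?_⟩
    rw [mul_smul]
    exact (h.par k' hp).trans _ _ _ hq

/-- the setoid -/
def kset (h : Acts G X) (K : Subgroup G) : Setoid (V × V) := ⟨KPar X K, kpar_equiv h K⟩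

/-- the labels: the `K`-orbits of oriented hyperplanes -/
def Lbl (h : Acts G X) (K : Subgroup G) : Type := Quotient (kset h K)

/-- the label of an edge -/
def lab (h : Acts G X) (K : Subgroup G) (x y : V) : Lbl h K := Quotient.mk (kset h K) (x, y)

/-- the opposite label -/
def linv (h : Acts G X) (K : Subgroup G) : Lbl h K → Lbl h K :=
  Quotient.map Prod.swap (by
    rintro p q ⟨k, hk, hp⟩
    exact ⟨k, hk, par_swap hp⟩)

/-- the action on the labels -/
instance (h : Acts G X) (K : Subgroup G) [hK : K.Normal] : MulAction G (Lbl h K) where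
  smul g := Quotient.map (fun p => g • p) (by
    rintro p q ⟨k, hk, hp⟩
    refine ⟨g * k * g⁻¹, hK.conj_mem k hk g, ?_⟩
    rw [smul_smul, inv_mul_cancel_right, mul_smul]
    exact h.par g hp)
  one_smul := by
    rintro ⟨p⟩
    exact congrArg (Quotient.mk (kset h K)) (one_smul G p)
  mul_smul g g' := by
    rintro ⟨p⟩
    exact congrArg (Quotient.mk (kset h K)) (mul_smul g g' p)

theorem smul_lab (h : Acts G X) (K : Subgroup G) [K.Normal] (g : G) (x y : V) :
    g • lab h K x y = lab h K (g • x) (g • y) := rfl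

theorem smul_linv (h : Acts G X) (K : Subgroup G) [K.Normal] (g : G) (ℓ : Lbl h K) :
    linv h K (g • ℓ) = g • linv h K ℓ := by
  obtain ⟨p⟩ := ℓ
  rfl

theorem smul_of_mem (h : Acts G X) (K : Subgroup G) [K.Normal] (k : G) (hk : k ∈ K) (ℓ : Lbl h K) :
    k • ℓ = ℓ := by
  obtain ⟨p⟩ := ℓ
  refine Quotient.sound (s := kset h K) ((kset h K).symm ⟨k, hk, Relation.EqvGen.refl _⟩)

theorem isLab (h : Acts G X) {K : Subgroup G} (hS : Special X K) : Lab X (lab h K) (linv h K) where
  inv_inv := by
    rintro ⟨p⟩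
    rfl
  symm a b := rfl
  sq a b c d hs := Quotient.sound (s := kset h K)
    ⟨1, K.one_mem, by rw [one_smul]; exact Relation.EqvGen.rel _ _ hs⟩
  uniq x y z hy hz he := hS.osc x y z hy hz (Quotient.exact he)
  fill x y z hy hz hc := by
    obtain ⟨a, b, c, d, hs, h1, h2⟩ := hc
    exact hS.inter x y z hy hz a b c d hs (Quotient.exact h1) (Quotient.exact h2)

theorem com_smul (h : Acts G X) (K : Subgroup G) [K.Normal] (g : G) {ℓ m : Lbl h K}
    (hc : Com X (lab h K) ℓ m) : Com X (lab h K) (g • ℓ) (g • m) := by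
  obtain ⟨a, b, c, d, hs, rfl, rfl⟩ := hc
  exact ⟨g • a, g • b, g • c, g • d, h.sq g hs, rfl, rfl⟩

/-- the action of the quotient group on the labels -/
instance (h : Acts G X) (K : Subgroup G) [K.Normal] : MulAction (G ⧸ K) (Lbl h K) :=
  MulAction.compHom (Lbl h K) (QuotientGroup.lift K (MulAction.toPermHom G (Lbl h K)) (fun k hk =>
    Equiv.ext (fun ℓ => smul_of_mem h K k hk ℓ)))

theorem mk_smul (h : Acts G X) (K : Subgroup G) [K.Normal] (g : G) (ℓ : Lbl h K) :
    (QuotientGroup.mk g : G ⧸ K) • ℓ = g • ℓ := rfl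

/-- **the embedding**: let `W` be a group with the universal property of the right-angled Coxeter group
of the labels, on which `G ⧸ K` acts by permutations of the generators -/
theorem embed (hX : Median X) (h : Acts G X) {K : Subgroup G} [K.Normal] (hS : Special X K)
    {W : Type} [Group W] (s : Lbl h K → W) (hs : ∀ ℓ, s ℓ * s ℓ = 1)
    (hcom : ∀ ℓ m, Com X (lab h K) ℓ m → s ℓ * s m = s m * s ℓ)
    (huniv : ∀ (H : Type) [Group H] (S : Lbl h K → H), (∀ ℓ, S ℓ * S ℓ = 1) →
      (∀ ℓ m, Com X (lab h K) ℓ m → S ℓ * S m = S m * S ℓ) → ∃ φ : W →* H, ∀ ℓ, φ (s ℓ) = S ℓ)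
    (α : G ⧸ K →* MulAut W) (hα : ∀ (g : G) ℓ, α (QuotientGroup.mk g) (s ℓ) = s (g • ℓ)) :
    ∃ Ψ : G →* W ⋊[α] (G ⧸ K), Function.Injective Ψ ∧
      ∀ g, (Ψ g).right = (QuotientGroup.mk g : G ⧸ K) := by
  classical
  have hL := isLab h hS
  obtain ⟨v₀⟩ := hX.1.nonempty
  have hsinv : ∀ ℓ, (s ℓ)⁻¹ = s ℓ := fun ℓ => inv_eq_of_mul_eq_one_left (hs ℓ)
  -- commuting labels
  have hom : ∀ ℓ m, Com X (lab h K) ℓ m →
      om (linv h K) s ℓ * om (linv h K) s m = om (linv h K) s m * om (linv h K) s ℓ := by
    intro ℓ m hc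
    have c0 : Commute (s ℓ) (s m) := hcom _ _ hc
    have c1 : Commute (s (linv h K ℓ)) (s m) := hcom _ _ (hL.com_inv hc)
    have c2 : Commute (s ℓ) (s (linv h K m)) := hcom _ _ (Lab.com_symm (hL.com_inv (Lab.com_symm hc)))
    have c3 : Commute (s (linv h K ℓ)) (s (linv h K m)) :=
      hcom _ _ (hL.com_inv (Lab.com_symm (hL.com_inv (Lab.com_symm hc))))
    have : Commute (om (linv h K) s ℓ) (om (linv h K) s m) := by
      unfold om
      split_ifs
      · exact c0
      · exact c0.mul_right c2
      · exact c0.mul_left c1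
      · exact (c0.mul_right c2).mul_left (c1.mul_right c3)
    exact this
  obtain ⟨lam, h1, hlam⟩ := potential hX (fun a b => om (linv h K) s (lab h K a b))
    (by
      intro a b hab
      rw [hL.symm a b]
      unfold om
      rw [hL.inv_inv]
      by_cases hi : linv h K (lab h K a b) = lab h K a b
      · rw [if_pos hi.symm, if_pos hi, hsinv, hi]
      · rw [if_neg (fun e => hi e.symm), if_neg hi, mul_inv_rev, hsinv, hsinv])
    (by
      intro a b c d hs'
      have e1 : lab h K a b = lab h K d c := hL.sq a b c d hs'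
      have e2 : lab h K b c = lab h K a d := (hL.sq a d c b hs'.flip).symm
      rw [← e1, e2]
      exact hom _ _ ⟨a, b, c, d, hs', rfl, rfl⟩) v₀
  have inj := hL.injective hX.1 s hs huniv lam hlam
  have equiv : ∀ (g : G) (v : V), lam (g • v) = lam (g • v₀) * α (QuotientGroup.mk g) (lam v) := by
    intro g v
    obtain ⟨p⟩ := hX.1.preconnected v v₀
    have hαom : ∀ ℓ, α (QuotientGroup.mk g) (om (linv h K) s ℓ) = om (linv h K) s (g • ℓ) := by
      intro ℓ
      unfold om
      rw [smul_linv]
      by_cases hi : linv h K ℓ = ℓ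
      · rw [if_pos hi, if_pos (congrArg _ hi), hα]
      · rw [if_neg hi, if_neg (fun e => hi (MulAction.injective g e)), map_mul, hα, hα]
    have gen : ∀ {u w : V} (p : X.Walk u w), lam (g • w) = lam (g • v₀) * α (QuotientGroup.mk g) (lam w) →
        lam (g • u) = lam (g • v₀) * α (QuotientGroup.mk g) (lam u) := by
      intro u w p
      induction p with
      | nil => exact id
      | @cons a b _ hab p ih =>
        intro hw
        have h3 := hlam b a hab.symm
        have h4 := hlam (g • b) (g • a) (h g _ _ hab.symm)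
        rw [h4, ih hw, h3, map_mul, hαom, smul_lab, mul_assoc]
    exact gen p (by rw [h1, map_one, mul_one])
  let Ψ : G →* W ⋊[α] (G ⧸ K) :=
    { toFun := fun g => ⟨lam (g • v₀), QuotientGroup.mk g⟩
      map_one' := by
        rw [one_smul, h1]
        rfl
      map_mul' := fun a b => by
        apply SemidirectProduct.ext
        · simp only [SemidirectProduct.mul_left]
          rw [mul_smul, equiv a (b • v₀)]
        · rfl }
  refine ⟨Ψ, ?_, fun g => rfl⟩
  rw [injective_iff_map_eq_one]
  intro g hg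
  have e1 : lam (g • v₀) = 1 := congrArg SemidirectProduct.left hg
  have e2 : (QuotientGroup.mk g : G ⧸ K) = 1 := congrArg SemidirectProduct.right hg
  have e3 : g ∈ K := (QuotientGroup.eq_one_iff g).mp e2
  have e4 : g • v₀ = v₀ := inj (e1.trans h1.symm)
  exact hS.free g e3 v₀ e4

end Pool.Agent.H4.CC
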