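import Pool.Agent.H4.CC.Tre
import Pool.Graph.R_pool_sql_team_seeded_3997aac3.Results.MP_63c928_gt.LocallyVirtuallyCyclicEdges

/-!
# Farrell–Jones classes: median graphs with coloured hyperplanes and small hyperplane stabilizers

Owner helper4.
-/

set_option autoImplicit false

namespace Pool.Agent.H4.CC

open Q182.Cyl (ClosedA)

variable {V G : Type} [Group G] [MulAction G V] {X : SimpleGraph V} {U : Type} {cl : V → V → U}

/-- the homomorphism `ρ` has finite kernels on the finitely generated groups of elements which preserve a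
half-space of colour `i` -/
def KerFin (X : SimpleGraph V) (cl : V → V → U) (i : U) {Q : Type} [Group Q] (ρ : G →* Q) : Prop :=
  ∀ a b : V, X.Adj a b → cl a b = i → ∀ S : Subgroup G, S.FG →
    (∀ g ∈ S, Par X (g • (a, b)) (a, b)) → {g : G | g ∈ S ∧ ρ g = 1}.Finite

/-- the finitely generated groups `S` of elements which preserve a half-space of colour `i`, for which
`ρ(S)` is contained in a cyclic group, are virtually cyclic, and the elements of infinite order in the
kernel of `ρ` which preserve a half-space of colour `i` are balanced -/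
def KerCyc (X : SimpleGraph V) (cl : V → V → U) (i : U) {Q : Type} [Group Q] (ρ : G →* Q) : Prop :=
  (∀ a b : V, X.Adj a b → cl a b = i → ∀ S : Subgroup G, S.FG →
    (∀ g ∈ S, Par X (g • (a, b)) (a, b)) → (∃ c : Q, ∀ s ∈ S, ρ s ∈ Subgroup.zpowers c) →
    ∃ z ∈ S, (Subgroup.zpowers z).relIndex S ≠ 0) ∧
  (∀ a b : V, X.Adj a b → cl a b = i → ∀ h : G, Par X (h • (a, b)) (a, b) →
    (∀ n : ℕ, 0 < n → h ^ n ≠ 1) → ρ h = 1 →
    ∀ (g : G) (m n : ℤ), g * h ^ m * g⁻¹ = h ^ n → |m| = |n|)

/-- an element which fixes an edge of the tree of the regions preserves the half-space -/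
theorem par_of_fix (hX : Median X) (hact : Acts G X) (hc : Colouring G X cl) {J : Set U} {g : G}
    {a b : V} (hab : X.Adj a b) (hi : cl a b ∉ J) (ha : Rel X cl J (g • a) a)
    (hb : Rel X cl J (g • b) b) : Par X (g • (a, b)) (a, b) := by
  have f1 := sepw hX hc hab hi ha
  have f2 := sepw hX hc hab hi hb
  have d0 : X.dist a a = 0 := SimpleGraph.dist_self
  have d1 : X.dist a b = 1 := SimpleGraph.dist_eq_one_iff_adj.mpr hab
  have d2 : X.dist b b = 0 := SimpleGraph.dist_self
  exact (lad hX hab _ (g • a) (g • b) rfl (hact g _ _ hab) (by omega) (by omega)).symm _ _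

theorem stabJ_C (C : ∀ (G : Type) [Group G], Prop) (hC : ClosedA C) (hX : Median X)
    (hact : Acts G X) (hc : Colouring G X cl)
    (hinv : ∀ (g : G) (a b : V), X.Adj a b → ¬ Par X (g • (a, b)) (b, a))
    (hst : ∀ v : V, C (MulAction.stabilizer G v))
    (hρ : ∀ i : U, ∃ (Q : Type) (_ : Group Q) (ρ : G →* Q), C Q ∧
      (KerFin X cl i ρ ∨ KerCyc X cl i ρ)) (J : Set U) (hJ : J.Finite) :
    ∀ x, C (stabJ hact hc J x) := by
  have hb := hC.base.base
  induction J, hJ using Set.Finite.induction_on with
  | empty =>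
    intro x
    have hle : stabJ hact hc ∅ x ≤ MulAction.stabilizer G x := by
      intro g hg
      have hg' : Rel X cl ∅ x (g • x) := hg
      rw [MulAction.mem_stabilizer_iff]
      rcases Relation.ReflTransGen.cases_tail hg' with h1 | ⟨y, _, h2⟩
      · exact h1
      · exact absurd h2.2 (Set.notMem_empty _)
    exact hb.of_injective _ _ (Subgroup.inclusion hle) (Subgroup.inclusion_injective hle) (hst x)
  | @insert i J hi hJ ih =>
    intro x
    have hsur : ∀ s : TV hc J (insert i J) x, ∃ y : Reg X cl (insert i J) x,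
        Quotient.mk (rset hc J (insert i J) x) y = s := fun s => Quotient.exists_rep s
    -- the edge stabilizers
    obtain ⟨Q, _, ρ, hQ, hρ⟩ := hρ i
    have hedge : ∀ s t : TV hc J (insert i J) x, (tree hX hc hi x).Adj s t → ∃ a b : V, X.Adj a b ∧
        cl a b = i ∧ ∀ g : stabJ hact hc (insert i J) x, g • s = s → g • t = t →
          Par X ((g : G) • (a, b)) (a, b) := by
      rintro s t ⟨y, z, h1, h2, h3, h4⟩
      refine ⟨y.1, z.1, h3, h4, fun g hs ht => ?_⟩
      have hi' : cl y.1 z.1 ∉ J := fun e => hi (h4 ▸ e)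
      refine par_of_fix hX hact hc h3 hi' ?_ ?_
      · have : Quotient.mk (rset hc J (insert i J) x) (g • y) = Quotient.mk _ y := by
          rw [h1, ← hs, ← h1]; rfl
        exact Quotient.exact this
      · have : Quotient.mk (rset hc J (insert i J) x) (g • z) = Quotient.mk _ z := by
          rw [h2, ← ht, ← h2]; rfl
        exact Quotient.exact this
    have hmap : ∀ S : Subgroup (stabJ hact hc (insert i J) x), S.FG →
        (S.map (stabJ hact hc (insert i J) x).subtype).FG := by
      intro S hS
      obtain ⟨E, rfl⟩ := hS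
      classical
      refine ⟨E.image (stabJ hact hc (insert i J) x).subtype, ?_⟩
      rw [Finset.coe_image, MonoidHom.map_closure]
    have key := Pool.Agent.Results.MP_63c928_gt.LocallyVirtuallyCyclicEdges.result C hC
      (stabJ hact hc (insert i J) x) Q (TV hc J (insert i J) x)
      (ρ.comp (stabJ hact hc (insert i J) x).subtype) hQ (tree hX hc hi x)
      (tree_isTree hX hc hi x) (by
        rintro g s t ⟨y, z, h1, h2, h3, h4⟩
        refine ⟨g • y, g • z, ?_, ?_, hact g.1 _ _ h3, (hc.inv g.1 _ _).trans h4⟩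
        · rw [← h1]; rfl
        · rw [← h2]; rfl) (by
        rintro g s t ⟨y, z, h1, h2, h3, h4⟩ ⟨hst', hts⟩
        have hi' : cl y.1 z.1 ∉ J := fun e => hi (h4 ▸ e)
        have e1 : Rel X cl J (g.1 • y.1) z.1 := by
          have : Quotient.mk (rset hc J (insert i J) x) (g • y) = Quotient.mk _ z := by
            rw [h2, ← hst', ← h1]; rfl
          exact Quotient.exact this
        have e2 : Rel X cl J (g.1 • z.1) y.1 := by
          have : Quotient.mk (rset hc J (insert i J) x) (g • z) = Quotient.mk _ y := by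
            rw [h1, ← hts, ← h2]; rfl
          exact Quotient.exact this
        have f1 := sepw hX hc h3 hi' e1
        have f2 := sepw hX hc h3 hi' e2
        have d0 : X.dist y.1 y.1 = 0 := SimpleGraph.dist_self
        have d1 : X.dist y.1 z.1 = 1 := SimpleGraph.dist_eq_one_iff_adj.mpr h3
        have d2 : X.dist z.1 z.1 = 0 := SimpleGraph.dist_self
        have := lad hX h3 _ (g.1 • z.1) (g.1 • y.1) rfl (hact g.1 _ _ h3.symm) (by omega) (by omega)
        exact hinv g.1 y.1 z.1 h3 ((par_swap this).symm _ _)) (by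
        rintro ⟨y⟩
        refine hb.of_injective _ (stabJ hact hc J y.1)
          { toFun := fun g => ⟨g.1.1, ?_⟩
            map_one' := rfl
            map_mul' := fun _ _ => rfl } ?_ (ih y.1)
        · have h1 : Quotient.mk (rset hc J (insert i J) x) (g.1 • y) =
              Quotient.mk (rset hc J (insert i J) x) y := g.2
          exact (Rel.equiv hc J).symm (Quotient.exact h1)
        · intro a b hab
          exact Subtype.ext (Subtype.ext (congrArg (fun z : stabJ hact hc J y.1 => (z : G)) hab)))
    rcases hρ with hρ | hρ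
    · apply key.2
      intro s t hst' S hS hle
      obtain ⟨a, b, hab, hcol, hg⟩ := hedge s t hst'
      have h1 := hρ a b hab hcol (S.map (stabJ hact hc (insert i J) x).subtype) (hmap S hS) (by
        rintro _ ⟨g, hgS, rfl⟩
        exact hg g (hle hgS).1 (hle hgS).2)
      refine Set.Finite.of_finite_image (f := fun g : stabJ hact hc (insert i J) x => (g : G))
        (h1.subset ?_) (Subtype.val_injective.injOn)
      rintro _ ⟨g, ⟨hgS, hg1⟩, rfl⟩
      exact ⟨⟨g, hgS, rfl⟩, hg1⟩
    · apply key.1
      · intro s t hst' S hS hle ⟨c, hcS⟩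
        obtain ⟨a, b, hab, hcol, hg⟩ := hedge s t hst'
        obtain ⟨z, hz, hzi⟩ := hρ.1 a b hab hcol (S.map (stabJ hact hc (insert i J) x).subtype)
          (hmap S hS) (by
            rintro _ ⟨g, hgS, rfl⟩
            exact hg g (hle hgS).1 (hle hgS).2) ⟨c, by
            rintro _ ⟨g, hgS, rfl⟩
            exact hcS g hgS⟩
        obtain ⟨z', hz', rfl⟩ := hz
        refine ⟨z', hz', ?_⟩
        have e1 : Subgroup.zpowers ((stabJ hact hc (insert i J) x).subtype z') =
            (Subgroup.zpowers z').map (stabJ hact hc (insert i J) x).subtype :=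
          (MonoidHom.map_zpowers _ _).symm
        rw [e1, Subgroup.relIndex_map_map_of_injective _ _ (Subgroup.subtype_injective _)] at hzi
        exact hzi
      · intro s t hst' h hs ht hinf hρh g m n hmn
        obtain ⟨a, b, hab, hcol, hg⟩ := hedge s t hst'
        refine hρ.2 a b hab hcol h (hg h hs ht) (fun n hn e => hinf n hn (Subtype.ext ?_)) hρh g m n ?_
        · rw [Subgroup.coe_pow, e]; rfl
        · have := congrArg Subtype.val hmn
          simpa using this

theorem Rel.exists_finite' (hX : X.Connected) (cl : V → V → U) (x y : V) :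
    ∃ J : Set U, J.Finite ∧ Rel X cl J x y := by
  obtain ⟨p⟩ := hX.preconnected x y
  induction p with
  | nil => exact ⟨∅, Set.finite_empty, Relation.ReflTransGen.refl⟩
  | @cons a b _ hab _ ih =>
    obtain ⟨J, hJ, hr⟩ := ih
    exact ⟨insert (cl a b) J, hJ.insert _,
      Relation.ReflTransGen.head ⟨hab, Set.mem_insert _ _⟩ (Rel.mono (Set.subset_insert _ _) hr)⟩

/-- **actions on median graphs with coloured hyperplanes** -/
theorem median_C (C : ∀ (G : Type) [Group G], Prop) (hC : ClosedA C) (hX : Median X)
    (hact : Acts G X) (hc : Colouring G X cl)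
    (hinv : ∀ (g : G) (a b : V), X.Adj a b → ¬ Par X (g • (a, b)) (b, a))
    (hst : ∀ v : V, C (MulAction.stabilizer G v))
    (hρ : ∀ i : U, ∃ (Q : Type) (_ : Group Q) (ρ : G →* Q), C Q ∧
      (KerFin X cl i ρ ∨ KerCyc X cl i ρ)) : C G := by
  classical
  obtain ⟨v₀⟩ := hX.1.nonempty
  refine Pool.Agent.Y430.SS.of_directed hC.base.base G (Finset U)
    (fun i j => ⟨i ∪ j, Finset.subset_union_left, Finset.subset_union_right⟩)
    (fun J => stabJ hact hc (J : Set U) v₀) ?_ ?_ (fun J => stabJ_C C hC hX hact hc hinv hst hρ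
      (J : Set U) J.finite_toSet v₀)
  · intro J J' hJ g hg
    exact Rel.mono (by exact_mod_cast hJ) hg
  · intro g
    obtain ⟨J, hJ, hr⟩ := Rel.exists_finite' hX.1 cl v₀ (g • v₀)
    exact ⟨hJ.toFinset, by
      show Rel X cl _ v₀ (g • v₀)
      rwa [Set.Finite.coe_toFinset]⟩

end Pool.Agent.H4.CC
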