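import Pool.Agent.H4.CC.Act

/-!
# Special kernels from separability of the double cosets of stabilizers of half-spaces

Owner helper4.
-/

set_option autoImplicit false

namespace Pool.Agent.H4.CC

variable {V G : Type} [Group G] [MulAction G V] {X : SimpleGraph V}

/-- the stabilizer of the oriented hyperplane (that is, of the half-space) of the oriented edge `p` -/
def St (h : Acts G X) (p : V × V) : Subgroup G where
  carrier := {g | Par X (g • p) p}
  one_mem' := by
    show Par X ((1 : G) • p) p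
    rw [one_smul]
    exact Relation.EqvGen.refl _
  mul_mem' := by
    intro a b ha hb
    show Par X ((a * b) • p) p
    rw [mul_smul]
    exact (h.par a hb).trans _ _ _ ha
  inv_mem' := by
    intro a ha
    show Par X (a⁻¹ • p) p
    have := h.par a⁻¹ ha
    rw [inv_smul_smul] at this
    exact this.symm _ _

theorem mem_St (h : Acts G X) {p : V × V} {g : G} : g ∈ St h p ↔ Par X (g • p) p := Iff.rfl

/-- the product `A B` of the subgroups `A` and `B` is closed in the topology given by the homomorphisms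
to the groups in `C` -/
def Sep (C : ∀ (P : Type) [Group P], Prop) (A B : Subgroup G) : Prop :=
  ∀ g : G, (∀ a ∈ A, ∀ b ∈ B, g ≠ a * b) →
    ∃ (P : Type) (_ : Group P) (f : G →* P), C P ∧ ∀ a ∈ A, ∀ b ∈ B, f g ≠ f a * f b

/-- some homomorphism to a group in `C` has a kernel with the property `cond` -/
def Det (C : ∀ (P : Type) [Group P], Prop) (cond : Subgroup G → Prop) : Prop :=
  ∃ (P : Type) (_ : Group P) (f : G →* P), C P ∧ cond f.ker

theorem Det.and {C : ∀ (P : Type) [Group P], Prop}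
    (hprod : ∀ (P Q : Type) [Group P] [Group Q], C P → C Q → C (P × Q))
    {c d : Subgroup G → Prop} (hc : ∀ K K', K ≤ K' → c K' → c K) (hd : ∀ K K', K ≤ K' → d K' → d K)
    (h1 : Det C c) (h2 : Det C d) : Det C (fun K => c K ∧ d K) := by
  obtain ⟨P, _, f, hP, hf⟩ := h1
  obtain ⟨Q, _, g, hQ, hg⟩ := h2
  refine ⟨P × Q, inferInstance, f.prod g, hprod P Q hP hQ, hc _ _ ?_ hf, hd _ _ ?_ hg⟩
  · intro x hx
    exact congrArg Prod.fst hx
  · intro x hx
    exact congrArg Prod.snd hx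

theorem Det.all {C : ∀ (P : Type) [Group P], Prop} (hne : ∃ (P : Type) (_ : Group P), C P)
    (hprod : ∀ (P Q : Type) [Group P] [Group Q], C P → C Q → C (P × Q))
    {ι : Type} {T : Set ι} (hT : T.Finite) {c : ι → Subgroup G → Prop}
    (hc : ∀ i K K', K ≤ K' → c i K' → c i K) (h : ∀ i ∈ T, Det C (c i)) :
    Det C (fun K => ∀ i ∈ T, c i K) := by
  induction T, hT using Set.Finite.induction_on with
  | empty =>
    obtain ⟨P, _, hP⟩ := hne
    exact ⟨P, _, 1, hP, fun i hi => absurd hi (Set.notMem_empty i)⟩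
  | @insert a S _ _ ih =>
    have := Det.and hprod (hc a) (fun K K' hK h' i hi => hc i K K' hK (h' i hi))
      (h a (Set.mem_insert a S)) (ih (fun i hi => h i (Set.mem_insert_of_mem a hi)))
    obtain ⟨P, _, f, hP, h1, h2⟩ := this
    refine ⟨P, _, f, hP, fun i hi => ?_⟩
    rcases Set.mem_insert_iff.mp hi with rfl | hi
    · exact h1
    · exact h2 i hi

/-- the hypotheses of the theorem on separable double cosets -/
structure Separable (C : ∀ (P : Type) [Group P], Prop) (h : Acts G X) : Prop where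
  /-- finitely many orbits of pairs of edges with a common vertex -/
  fin : ∃ T : Set (V × V × V), T.Finite ∧ ∀ x y z : V, X.Adj x y → X.Adj x z →
    ∃ g : G, (g • x, g • y, g • z) ∈ T
  /-- some homomorphism to a group in `C` is injective on the stabilizer of the vertex -/
  stab : ∀ x : V, ∃ (P : Type) (_ : Group P) (f : G →* P), C P ∧ ∀ g : G, g • x = x → f g = 1 → g = 1
  /-- the stabilizers of half-spaces are closed -/
  one : ∀ x y : V, X.Adj x y → Sep C (St h (x, y)) (St h (x, y))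
  /-- their double cosets are closed for the pairs of hyperplanes which cross -/
  two : ∀ x y u z : V, Sq X x y u z → Sep C (St h (x, y)) (St h (x, z))

theorem special_of_separable {C : ∀ (P : Type) [Group P], Prop}
    (hne : ∃ (P : Type) (_ : Group P), C P)
    (hprod : ∀ (P Q : Type) [Group P] [Group Q], C P → C Q → C (P × Q))
    (hX : Median X) (h : Acts G X) (hS : Separable C h)
    (hdeg : ∀ x : V, ∃ y, X.Adj x y) :
    ∃ (P : Type) (_ : Group P) (f : G →* P), C P ∧ Special X f.ker := by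
  classical
  obtain ⟨T, hT, hcov⟩ := hS.fin
  obtain ⟨P₀, _, hP₀⟩ := hne
  have any : ∀ c : Subgroup G → Prop, (∀ K, c K) → Det C c := fun c hc => ⟨P₀, _, 1, hP₀, hc _⟩
  -- the conditions
  let c0 : V × V × V → Subgroup G → Prop := fun τ K => ∀ k ∈ K, k • τ.1 = τ.1 → k = 1
  let c1 : V × V × V → Subgroup G → Prop := fun τ K =>
    X.Adj τ.1 τ.2.1 → X.Adj τ.1 τ.2.2 → KPar X K (τ.1, τ.2.1) (τ.1, τ.2.2) → τ.2.1 = τ.2.2
  let c2 : (V × V × V) × (V × V × V) → Subgroup G → Prop := fun w K =>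
    X.Adj w.1.1 w.1.2.1 → X.Adj w.1.1 w.1.2.2 → ∀ c, Sq X w.2.1 w.2.2.1 c w.2.2.2 → ∀ g k : G, k ∈ K →
      Par X (g • (w.2.1, w.2.2.1)) (w.1.1, w.1.2.1) →
      Par X (k • g • (w.2.1, w.2.2.2)) (w.1.1, w.1.2.2) → ∃ u, Sq X w.1.1 w.1.2.1 u w.1.2.2
  have d0 : Det C (fun K => ∀ τ ∈ T, c0 τ K) := by
    refine Det.all ⟨P₀, _, hP₀⟩ hprod hT (fun τ K K' hK h' k hk => h' k (hK hk)) ?_
    intro τ _
    obtain ⟨P, _, f, hP, hf⟩ := hS.stab τ.1
    exact ⟨P, _, f, hP, fun k hk hk' => hf k hk' hk⟩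
  have d1 : Det C (fun K => ∀ τ ∈ T, c1 τ K) := by
    refine Det.all ⟨P₀, _, hP₀⟩ hprod hT ?_ ?_
    · rintro τ K K' hK h' ha hb ⟨k, hk, hp⟩
      exact h' ha hb ⟨k, hK hk, hp⟩
    · rintro ⟨x, y, z⟩ _
      by_cases hxy : X.Adj x y
      swap
      · exact any _ (fun K ha => absurd ha hxy)
      by_cases hg : ∃ g : G, Par X (g • (x, y)) (x, z)
      swap
      · refine any _ (fun K _ _ hk => ?_)
        obtain ⟨k, -, hk⟩ := hk
        exact absurd ⟨k, hk⟩ hg
      obtain ⟨g, hg⟩ := hg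
      by_cases hgS : ∀ a ∈ St h (x, y), ∀ b ∈ St h (x, y), g ≠ a * b
      · obtain ⟨P, _, f, hP, hf⟩ := hS.one x y hxy g hgS
        refine ⟨P, _, f, hP, ?_⟩
        rintro - - ⟨k, hk, hp⟩
        exfalso
        have hm : k⁻¹ * g ∈ St h (x, y) := by
          rw [mem_St, mul_smul]
          have h1 := h.par k⁻¹ (hg.trans _ _ _ (hp.symm _ _))
          rwa [inv_smul_smul] at h1
        refine hf (k⁻¹ * g) hm 1 (Subgroup.one_mem _) ?_
        rw [map_mul, map_inv, (MonoidHom.mem_ker).mp hk]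
        simp
      · push Not at hgS
        obtain ⟨a, ha, b, hb, hgab⟩ := hgS
        refine any _ (fun K _ hxz _ => ?_)
        have h1 : g ∈ St h (x, y) := hgab ▸ Subgroup.mul_mem _ ha hb
        exact osc1 hX hxy hxz (((mem_St h).mp h1).symm.trans _ _ _ hg)
  have d2 : Det C (fun K => ∀ w ∈ T ×ˢ T, c2 w K) := by
    refine Det.all ⟨P₀, _, hP₀⟩ hprod (hT.prod hT) ?_ ?_
    · intro w K K' hK h' ha hb c hc g k hk
      exact h' ha hb c hc g k (hK hk)
    · rintro ⟨⟨x, y, z⟩, ⟨a, b, d⟩⟩ -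
      by_cases hxy : X.Adj x y ∧ X.Adj x z
      swap
      · exact any _ (fun K ha hb => absurd ⟨ha, hb⟩ hxy)
      obtain ⟨hxy, hxz⟩ := hxy
      by_cases hsq : ∃ c, Sq X a b c d
      swap
      · exact any _ (fun K _ _ c hc => absurd ⟨c, hc⟩ hsq)
      obtain ⟨c, hc⟩ := hsq
      by_cases hg : (∃ g : G, Par X (g • (a, b)) (x, y)) ∧ ∃ g : G, Par X (g • (a, d)) (x, z)
      swap
      · refine any _ (fun K _ _ c' _ g k _ h1 h2 => absurd ⟨⟨g, h1⟩, ⟨k * g, ?_⟩⟩ hg)
        rw [mul_smul]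
        exact h2
      obtain ⟨⟨g₁, hg₁⟩, ⟨g₂, hg₂⟩⟩ := hg
      by_cases hgS : ∀ s ∈ St h (a, b), ∀ t ∈ St h (a, d), g₁⁻¹ * g₂ ≠ s * t
      · obtain ⟨P, _, f, hP, hf⟩ := hS.two a b c d hc (g₁⁻¹ * g₂) hgS
        refine ⟨P, _, f, hP, ?_⟩
        intro _ _ c' _ g k hk h1 h2
        exfalso
        have e1 : g₁⁻¹ * g ∈ St h (a, b) := by
          rw [mem_St, mul_smul]
          have h3 := h.par g₁⁻¹ (h1.trans _ _ _ (hg₁.symm _ _))
          rwa [inv_smul_smul] at h3
        have e2 : (k * g)⁻¹ * g₂ ∈ St h (a, d) := by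
          rw [mem_St, mul_smul]
          have h2' : Par X ((k * g) • (a, d)) (x, z) := by
            rw [mul_smul]
            exact h2
          have h3 := h.par (k * g)⁻¹ (hg₂.trans _ _ _ (h2'.symm _ _))
          rwa [inv_smul_smul] at h3
        refine hf _ e1 _ e2 ?_
        rw [← map_mul]
        have hk' : f k = 1 := (MonoidHom.mem_ker).mp hk
        simp only [map_mul, map_inv, mul_inv_rev, hk']
        group
      · push Not at hgS
        obtain ⟨s, hs, t, ht, hst⟩ := hgS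
        refine any _ (fun K _ _ c' _ g k _ _ _ => ?_)
        -- the element `u = g₁ s = g₂ t⁻¹`
        have e1 : Par X ((g₁ * s) • (a, b)) (x, y) := by
          rw [mul_smul]
          exact (h.par g₁ hs).trans _ _ _ hg₁
        have e2 : Par X ((g₁ * s) • (a, d)) (x, z) := by
          have : g₁ * s = g₂ * t⁻¹ := by
            rw [inv_mul_eq_iff_eq_mul] at hst
            rw [hst]
            group
          rw [this, mul_smul]
          exact (h.par g₂ (Subgroup.inv_mem _ ht)).trans _ _ _ hg₂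
        exact osc2 hX hxy hxz (h.sq (g₁ * s) hc) e1 e2
  have m1 : ∀ K K' : Subgroup G, K ≤ K' → (∀ τ ∈ T, c1 τ K') → ∀ τ ∈ T, c1 τ K := by
    rintro K K' hK h' τ hτ ha hb ⟨k, hk, hp⟩
    exact h' τ hτ ha hb ⟨k, hK hk, hp⟩
  have m2 : ∀ K K' : Subgroup G, K ≤ K' → (∀ w ∈ T ×ˢ T, c2 w K') → ∀ w ∈ T ×ˢ T, c2 w K := by
    intro K K' hK h' w hw ha hb c hc g k hk
    exact h' w hw ha hb c hc g k (hK hk)
  have d12 := Det.and hprod m1 m2 d1 d2
  obtain ⟨P, _, f, hP, h0, h1, h2⟩ := Det.and hprod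
    (fun K K' hK h' τ hτ k hk => h' τ hτ k (hK hk))
    (fun K K' hK h' => ⟨m1 K K' hK h'.1, m2 K K' hK h'.2⟩) d0 d12
  refine ⟨P, _, f, hP, ?_, ?_, ?_⟩
  · intro k hk x hkx
    obtain ⟨y, hy⟩ := hdeg x
    obtain ⟨g, hg⟩ := hcov x y y hy hy
    have := h0 _ hg (g * k * g⁻¹) ((inferInstance : f.ker.Normal).conj_mem k hk g) (by
      show (g * k * g⁻¹) • g • x = g • x
      rw [smul_smul, inv_mul_cancel_right, mul_smul, hkx])
    simpa using this
  · rintro x y z hy hz ⟨k, hk, hp⟩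
    obtain ⟨g, hg⟩ := hcov x y z hy hz
    have := h1 _ hg (h g _ _ hy) (h g _ _ hz) ⟨g * k * g⁻¹, (inferInstance : f.ker.Normal).conj_mem k hk g, by
      have := h.par g hp
      show Par X ((g * k * g⁻¹) • g • (x, y)) (g • (x, z))
      rwa [smul_smul, inv_mul_cancel_right, mul_smul]⟩
    exact MulAction.injective g this
  · rintro x y z hy hz a b c d hs ⟨k₁, hk₁, hp₁⟩ ⟨k₂, hk₂, hp₂⟩
    obtain ⟨g, hg⟩ := hcov x y z hy hz
    obtain ⟨g', hg'⟩ := hcov a b d hs.1 hs.2.2.2.1.symm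
    obtain ⟨u, hu⟩ := h2 ((g • x, g • y, g • z), (g' • a, g' • b, g' • d)) ⟨hg, hg'⟩ (h g _ _ hy)
      (h g _ _ hz) (g' • c) (h.sq g' hs) (g * k₁ * g'⁻¹) (g * (k₂ * k₁⁻¹) * g⁻¹)
      ((inferInstance : f.ker.Normal).conj_mem _ (Subgroup.mul_mem _ hk₂ (Subgroup.inv_mem _ hk₁)) g)
      (by
        show Par X ((g * k₁ * g'⁻¹) • g' • (a, b)) (g • (x, y))
        rw [smul_smul, inv_mul_cancel_right, mul_smul]
        exact h.par g hp₁)
      (by
        show Par X ((g * (k₂ * k₁⁻¹) * g⁻¹) • (g * k₁ * g'⁻¹) • g' • (a, d)) (g • (x, z))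
        have : (g * (k₂ * k₁⁻¹) * g⁻¹) • (g * k₁ * g'⁻¹) • g' • (a, d) = g • k₂ • (a, d) := by
          rw [smul_smul, smul_smul, smul_smul]
          congr 1
          group
        rw [this]
        exact h.par g hp₂)
    refine ⟨g⁻¹ • u, ?_⟩
    have := h.sq g⁻¹ hu
    simpa using this

end Pool.Agent.H4.CC
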