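import Pool.Agent.H4.CC.Grp
import Pool.Agent.H4.CC.Sep

/-!
# Farrell–Jones classes and groups acting on median graphs

Owner helper4.
-/

set_option autoImplicit false

namespace Pool.Agent.H4.CC

open Pool.Agent.Y110.FJ

variable {V G : Type} [Group G] [MulAction G V] {X : SimpleGraph V}

/-- the graph of the commuting labels -/
def cgr (h : Acts G X) (K : Subgroup G) : SimpleGraph (Lbl h K) where
  Adj ℓ m := ℓ ≠ m ∧ Com X (lab h K) ℓ m
  symm := ⟨fun _ _ hc => ⟨hc.1.symm, Lab.com_symm hc.2⟩⟩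
  loopless := ⟨fun _ hc => hc.1 rfl⟩

/-- a group which acts on a median graph embeds in `W ⋊ (G ⧸ K)` for a right-angled Coxeter group `W`, if
the normal subgroup `K` acts specially -/
theorem embed_gp (hX : Median X) (h : Acts G X) {K : Subgroup G} [K.Normal] (hS : Special X K) :
    ∃ α : G ⧸ K →* MulAut (GrP (cgr h K) (fun _ => Z2)),
      (∀ q v a, α q (GrP.of (cgr h K) (fun _ => Z2) v a) = GrP.of (cgr h K) (fun _ => Z2) (q • v) a) ∧
      ∃ Ψ : G →* GrP (cgr h K) (fun _ => Z2) ⋊[α] (G ⧸ K), Function.Injective Ψ ∧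
        ∀ g, (Ψ g).right = (QuotientGroup.mk g : G ⧸ K) := by
  have hadj : ∀ (q : G ⧸ K) (v w : Lbl h K), (cgr h K).Adj v w → (cgr h K).Adj (q • v) (q • w) := by
    intro q v w hvw
    obtain ⟨g, rfl⟩ := QuotientGroup.mk_surjective q
    rw [mk_smul, mk_smul]
    exact ⟨fun e => hvw.1 (MulAction.injective g e), com_smul h K g hvw.2⟩
  have hL := isLab h hS
  obtain ⟨α, hα⟩ := gp_act (cgr h K) hadj
  refine ⟨α, hα, embed hX h hS (sg (cgr h K)) (sg_mul _)
    (fun ℓ m hc => sg_comm _ ⟨hL.com_ne hc, hc⟩) ?_ α ?_⟩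
  · intro H _ S hS1 hS2
    exact gp_univ (cgr h K) S hS1 (fun v w hvw => hS2 v w hvw.2)
  · intro g ℓ
    exact hα _ _ _

theorem fj_special (C : ∀ (G : Type) [Group G], Prop) (hC : ClosedE C) (hX : Median X) (h : Acts G X)
    {Q : Type} [Group Q] (f : G →* Q) (hQ : C Q) (hS : Special X f.ker) : C G := by
  obtain ⟨α, hα, Ψ, hΨ, -⟩ := embed_gp hX h hS
  have hadj : ∀ (q : G ⧸ f.ker) (v w : Lbl h f.ker), (cgr h f.ker).Adj v w →
      (cgr h f.ker).Adj (q • v) (q • w) := by
    intro q v w hvw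
    obtain ⟨g, rfl⟩ := QuotientGroup.mk_surjective q
    rw [mk_smul, mk_smul]
    exact ⟨fun e => hvw.1 (MulAction.injective g e), com_smul h f.ker g hvw.2⟩
  have hq : C (G ⧸ f.ker) :=
    hC.base.of_injective _ _ (QuotientGroup.kerLift f) (QuotientGroup.kerLift_injective f) hQ
  have hz : C Z2 := Pool.Agent.Y430.SS.of_finite hC.base _ inferInstance
  exact hC.base.of_injective _ _ Ψ hΨ
    (gw_ C hC (Lbl h f.ker) (G ⧸ f.ker) Z2 (cgr h f.ker) α hadj (fun q v a => hα q v a) hz hq)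

theorem fj_separable (C : ∀ (G : Type) [Group G], Prop) (hC : ClosedE C) (hX : Median X)
    (h : Acts G X) (hS : Separable C h) : C G := by
  by_cases hdeg : ∀ x : V, ∃ y, X.Adj x y
  · obtain ⟨P, _, f, hP, hf⟩ := special_of_separable ⟨_, _, hC.base.int⟩ hC.base.prod hX h hS hdeg
    exact fj_special C hC hX h f hP hf
  · push Not at hdeg
    obtain ⟨x, hx⟩ := hdeg
    obtain ⟨P, _, f, hP, hf⟩ := hS.stab x
    refine hC.base.of_injective _ _ f ?_ hP
    rw [injective_iff_map_eq_one]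
    intro g hg
    refine hf g ?_ hg
    obtain ⟨p⟩ := hX.1.preconnected x (g • x)
    generalize g • x = y at p
    cases p with
    | nil => rfl
    | cons h' _ => exact absurd h' (hx _)

end Pool.Agent.H4.CC
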