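import Pool.Agent.H4.CC.Act
import Pool.Graph.R_pool_sql_team_seeded_1acbe0a2.Y110.FJ.All4

/-!
# Right-angled Coxeter groups as graph products of groups of order two

Owner helper4.
-/

set_option autoImplicit false

namespace Pool.Agent.H4.CC

open Pool.Agent.Y110.FJ

/-- the group of order two -/
abbrev Z2 : Type := Multiplicative (ZMod 2)

/-- its generator -/
def z : Z2 := Multiplicative.ofAdd 1

theorem z_mul : z * z = 1 := by decide

theorem z_cases : ∀ a : Z2, a = 1 ∨ a = z := by decide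

/-- the homomorphism given by an involution -/
def zhom {H : Type} [Group H] (s : H) (hs : s * s = 1) : Z2 →* H where
  toFun a := if a = 1 then 1 else s
  map_one' := by simp
  map_mul' a b := by
    have hz : z ≠ 1 := by decide
    rcases z_cases a with rfl | rfl <;> rcases z_cases b with rfl | rfl <;>
      simp [hz, z_mul, hs]

theorem zhom_z {H : Type} [Group H] (s : H) (hs : s * s = 1) : zhom s hs z = s := by
  have hz : z ≠ 1 := by decide
  simp [zhom, hz]

section gp

variable {V : Type} (Λ : SimpleGraph V)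

/-- the generators -/
def sg (v : V) : GrP Λ (fun _ => Z2) := GrP.of Λ (fun _ => Z2) v z

theorem sg_mul (v : V) : sg Λ v * sg Λ v = 1 := by
  rw [sg, ← map_mul, z_mul, map_one]

theorem of_comm {v w : V} (h : Λ.Adj v w) (a b : Z2) :
    GrP.of Λ (fun _ => Z2) v a * GrP.of Λ (fun _ => Z2) w b =
      GrP.of Λ (fun _ => Z2) w b * GrP.of Λ (fun _ => Z2) v a := by
  have h1 : (QuotientGroup.mk' (Subgroup.normalClosure (commRel Λ (fun _ => Z2))))
      (Monoid.CoprodI.of (i := v) a * Monoid.CoprodI.of (i := w) b *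
        (Monoid.CoprodI.of (i := v) a)⁻¹ * (Monoid.CoprodI.of (i := w) b)⁻¹) = 1 := by
    rw [QuotientGroup.mk'_apply, QuotientGroup.eq_one_iff]
    exact Subgroup.subset_normalClosure ⟨v, w, a, b, h, rfl⟩
  rw [map_mul, map_mul, map_mul, map_inv, map_inv] at h1
  have h2 : GrP.of Λ (fun _ => Z2) v a * GrP.of Λ (fun _ => Z2) w b *
      (GrP.of Λ (fun _ => Z2) v a)⁻¹ * (GrP.of Λ (fun _ => Z2) w b)⁻¹ = 1 := h1
  rw [mul_inv_eq_one] at h2
  exact eq_mul_of_mul_inv_eq h2

theorem sg_comm {v w : V} (h : Λ.Adj v w) : sg Λ v * sg Λ w = sg Λ w * sg Λ v := of_comm Λ h z z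

/-- homomorphisms out of the group -/
theorem gp_lift {H : Type} [Group H] (f : V → Z2 →* H)
    (h : ∀ v w, Λ.Adj v w → ∀ a b, f v a * f w b = f w b * f v a) :
    ∃ φ : GrP Λ (fun _ => Z2) →* H, ∀ v a, φ (GrP.of Λ (fun _ => Z2) v a) = f v a := by
  refine ⟨QuotientGroup.lift _ (Monoid.CoprodI.lift f) ?_, ?_⟩
  · intro x hx
    have : Subgroup.normalClosure (commRel Λ (fun _ => Z2)) ≤ (Monoid.CoprodI.lift f).ker := by
      refine Subgroup.normalClosure_le_normal ?_
      rintro r ⟨v, w, a, b, hvw, rfl⟩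
      rw [SetLike.mem_coe, MonoidHom.mem_ker]
      simp only [map_mul, map_inv, Monoid.CoprodI.lift_of]
      rw [h v w hvw a b]
      group
    exact this hx
  · intro v a
    show Monoid.CoprodI.lift f (Monoid.CoprodI.of a) = f v a
    rw [Monoid.CoprodI.lift_of]

theorem gp_ext {H : Type} [Group H] {φ ψ : GrP Λ (fun _ => Z2) →* H}
    (h : ∀ v a, φ (GrP.of Λ (fun _ => Z2) v a) = ψ (GrP.of Λ (fun _ => Z2) v a)) : φ = ψ := by
  apply QuotientGroup.monoidHom_ext
  apply Monoid.CoprodI.ext_hom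
  intro v
  exact MonoidHom.ext (fun a => h v a)

theorem gp_univ {H : Type} [Group H] (S : V → H) (hS : ∀ v, S v * S v = 1)
    (hc : ∀ v w, Λ.Adj v w → S v * S w = S w * S v) :
    ∃ φ : GrP Λ (fun _ => Z2) →* H, ∀ v, φ (sg Λ v) = S v := by
  obtain ⟨φ, hφ⟩ := gp_lift Λ (fun v => zhom (S v) (hS v)) (by
    intro v w hvw a b
    rcases z_cases a with rfl | rfl <;> rcases z_cases b with rfl | rfl <;>
      simp [zhom_z, hc v w hvw])
  exact ⟨φ, fun v => by rw [sg, hφ, zhom_z]⟩

/-- the action on the group of a group which acts on the graph -/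
theorem gp_act {Q : Type} [Group Q] [MulAction Q V]
    (h : ∀ (q : Q) (v w : V), Λ.Adj v w → Λ.Adj (q • v) (q • w)) :
    ∃ α : Q →* MulAut (GrP Λ (fun _ => Z2)),
      ∀ q v a, α q (GrP.of Λ (fun _ => Z2) v a) = GrP.of Λ (fun _ => Z2) (q • v) a := by
  have h1 : ∀ q : Q, ∃ φ : GrP Λ (fun _ => Z2) →* GrP Λ (fun _ => Z2),
      ∀ v a, φ (GrP.of Λ (fun _ => Z2) v a) = GrP.of Λ (fun _ => Z2) (q • v) a := fun q =>
    gp_lift Λ (fun v => GrP.of Λ (fun _ => Z2) (q • v)) (fun v w hvw a b =>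
      of_comm Λ (h q v w hvw) a b)
  choose φ hφ using h1
  have hone : φ 1 = MonoidHom.id _ := by
    apply gp_ext
    intro v a
    rw [hφ, one_smul]
    rfl
  have hmul : ∀ p q, φ (p * q) = (φ p).comp (φ q) := by
    intro p q
    apply gp_ext
    intro v a
    rw [hφ, MonoidHom.comp_apply, hφ, hφ, mul_smul]
  refine ⟨{ toFun := fun q => (φ q).toMulEquiv (φ q⁻¹) ?_ ?_, map_one' := ?_, map_mul' := ?_ }, ?_⟩
  · rw [← hmul, inv_mul_cancel, hone]
  · rw [← hmul, mul_inv_cancel, hone]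
  · ext1 x
    show φ 1 x = x
    rw [hone]
    rfl
  · intro p q
    ext1 x
    show φ (p * q) x = φ p (φ q x)
    rw [hmul]
    rfl
  · intro q v a
    exact hφ q v a

end gp

end Pool.Agent.H4.CC
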