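import Pool.Agent.H4.CC.Med

/-!
# Labelled graphs and right-angled reflections

A connected graph with a labelling of its oriented edges such that the labels at each vertex are
different and commuting labels span squares embeds in the group generated by the labels.

Owner helper4.
-/

set_option autoImplicit false

namespace Pool.Agent.H4.CC

variable {V L : Type} {X : SimpleGraph V} {lab : V → V → L} {inv : L → L}

/-- two labels commute: there is a square whose edges at one of the corners have these labels -/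
def Com (X : SimpleGraph V) (lab : V → V → L) (ℓ m : L) : Prop :=
  ∃ a b c d, Sq X a b c d ∧ lab a b = ℓ ∧ lab a d = m

/-- labellings -/
structure Lab (X : SimpleGraph V) (lab : V → V → L) (inv : L → L) : Prop where
  inv_inv : ∀ ℓ, inv (inv ℓ) = ℓ
  symm : ∀ a b, lab b a = inv (lab a b)
  sq : ∀ a b c d, Sq X a b c d → lab a b = lab d c
  uniq : ∀ x y z, X.Adj x y → X.Adj x z → lab x y = lab x z → y = z
  fill : ∀ x y z, X.Adj x y → X.Adj x z → Com X lab (lab x y) (lab x z) → ∃ u, Sq X x y u z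

namespace Lab

theorem com_symm {ℓ m : L} (h : Com X lab ℓ m) : Com X lab m ℓ := by
  obtain ⟨a, b, c, d, h, h1, h2⟩ := h
  exact ⟨a, d, c, b, h.flip, h2, h1⟩

theorem com_inv (hL : Lab X lab inv) {ℓ m : L} (h : Com X lab ℓ m) : Com X lab (inv ℓ) m := by
  obtain ⟨a, b, c, d, h, h1, h2⟩ := h
  refine ⟨b, a, d, c, h.flip.rot.rot.rot, ?_, ?_⟩
  · rw [hL.symm, h1]
  · rw [← h2]
    exact (hL.sq a d c b h.flip).symm

theorem com_ne (hL : Lab X lab inv) {ℓ m : L} (h : Com X lab ℓ m) : ℓ ≠ m := by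
  obtain ⟨a, b, c, d, h, h1, h2⟩ := h
  rintro rfl
  exact h.2.2.2.2.2 (hL.uniq a b d h.1 h.2.2.2.1.symm (h1.trans h2.symm))

theorem com_ne_inv (hL : Lab X lab inv) {ℓ m : L} (h : Com X lab ℓ m) : inv ℓ ≠ m :=
  com_ne hL (com_inv hL h)

/-- there is an edge with the label `ℓ` at `x` -/
def Has (X : SimpleGraph V) (lab : V → V → L) (ℓ : L) (x : V) : Prop := ∃ y, X.Adj x y ∧ lab x y = ℓ

open Classical in
/-- moving along the edge with the label `ℓ` -/
noncomputable def mv (X : SimpleGraph V) (lab : V → V → L) (ℓ : L) (x : V) : V :=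
  if h : Has X lab ℓ x then h.choose else x

theorem mv_eq (hL : Lab X lab inv) {x y : V} (h : X.Adj x y) : mv X lab (lab x y) x = y := by
  have hh : Has X lab (lab x y) x := ⟨y, h, rfl⟩
  rw [mv, dif_pos hh]
  exact hL.uniq x _ y hh.choose_spec.1 h hh.choose_spec.2

theorem mv_not {ℓ : L} {x : V} (h : ¬ Has X lab ℓ x) : mv X lab ℓ x = x := by
  rw [mv, dif_neg h]

theorem has_inv_mv (hL : Lab X lab inv) {ℓ : L} {x : V} (h : Has X lab ℓ x) :
    Has X lab (inv ℓ) (mv X lab ℓ x) := by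
  obtain ⟨y, hy, rfl⟩ := h
  rw [hL.mv_eq hy]
  exact ⟨x, hy.symm, hL.symm x y⟩

theorem mv_inv_mv (hL : Lab X lab inv) {ℓ : L} {x : V} (h : Has X lab ℓ x) :
    mv X lab (inv ℓ) (mv X lab ℓ x) = x := by
  obtain ⟨y, hy, rfl⟩ := h
  rw [hL.mv_eq hy, ← hL.symm x y, hL.mv_eq hy.symm]

/-- both edges: a square -/
theorem square (hL : Lab X lab inv) {d e : L} (h : Com X lab d e) {x : V} (hd : Has X lab d x)
    (he : Has X lab e x) :
    Has X lab e (mv X lab d x) ∧ mv X lab e (mv X lab d x) = mv X lab d (mv X lab e x) := by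
  obtain ⟨y, hy, rfl⟩ := hd
  obtain ⟨z, hz, rfl⟩ := he
  obtain ⟨u, hu⟩ := hL.fill x y z hy hz h
  have e1 : lab x z = lab y u := hL.sq x z u y hu.flip
  have e2 : lab x y = lab z u := hL.sq x y u z hu
  rw [hL.mv_eq hy, hL.mv_eq hz, e1, hL.mv_eq hu.2.1, e2, hL.mv_eq hu.2.2.1.symm]
  exact ⟨⟨u, hu.2.1, rfl⟩, rfl⟩

theorem has_mv (hL : Lab X lab inv) {d e : L} (h : Com X lab d e) (x : V) :
    Has X lab e (mv X lab d x) ↔ Has X lab e x := by
  by_cases hd : Has X lab d x
  · constructor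
    · intro he
      have h1 := (hL.square (com_inv hL h) (hL.has_inv_mv hd) he).1
      rwa [hL.mv_inv_mv hd] at h1
    · intro he
      exact (hL.square h hd he).1
  · rw [mv_not hd]

theorem mv_comm (hL : Lab X lab inv) {d e : L} (h : Com X lab d e) (x : V) :
    mv X lab e (mv X lab d x) = mv X lab d (mv X lab e x) := by
  by_cases hd : Has X lab d x
  · by_cases he : Has X lab e x
    · exact (hL.square h hd he).2
    · rw [mv_not he, mv_not]
      rwa [hL.has_mv h]
  · rw [mv_not hd]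
    symm
    apply mv_not
    rwa [hL.has_mv (com_symm h)]

/-! ### the involutions -/

open Classical in
/-- changing one flag -/
noncomputable def fl (ε : L → Bool) (ℓ : L) : L → Bool := Function.update ε ℓ (!ε ℓ)

theorem fl_same (ε : L → Bool) (ℓ : L) : fl ε ℓ ℓ = !ε ℓ := by
  classical
  simp [fl]

theorem fl_ne (ε : L → Bool) {ℓ m : L} (h : m ≠ ℓ) : fl ε ℓ m = ε m := by
  classical
  simp [fl, h]

theorem fl_fl (ε : L → Bool) (ℓ : L) : fl (fl ε ℓ) ℓ = ε := by
  classical
  funext m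
  by_cases h : m = ℓ
  · subst h
    simp [fl_same]
  · rw [fl_ne _ h, fl_ne _ h]

theorem fl_comm (ε : L → Bool) (ℓ m : L) : fl (fl ε ℓ) m = fl (fl ε m) ℓ := by
  classical
  by_cases hlm : ℓ = m
  · subst hlm; rfl
  · funext k
    by_cases h : k = m
    · subst h
      rw [fl_same, fl_ne _ (Ne.symm hlm), fl_ne _ (Ne.symm hlm), fl_same]
    · rw [fl_ne _ h]
      by_cases h' : k = ℓ
      · subst h'
        rw [fl_same, fl_same, fl_ne _ hlm]
      · rw [fl_ne _ h', fl_ne _ h', fl_ne _ h]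

open Classical in
/-- the direction given by a flag -/
noncomputable def dir (inv : L → L) (ℓ : L) (b : Bool) : L := if b then inv ℓ else ℓ

open Classical in
/-- the involutions -/
noncomputable def F (X : SimpleGraph V) (lab : V → V → L) (inv : L → L) (pos : L → Prop) (ℓ : L)
    (p : V × (L → Bool)) : V × (L → Bool) :=
  if pos ℓ then
    (mv X lab (dir inv ℓ (p.2 ℓ)) p.1,
      if Has X lab (dir inv ℓ (p.2 ℓ)) p.1 ∧ inv ℓ ≠ ℓ then fl p.2 ℓ else p.2)
  else (p.1, fl p.2 (inv ℓ))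

variable {pos : L → Prop}

theorem F_neg {ℓ : L} (h : ¬ pos ℓ) (p : V × (L → Bool)) :
    F X lab inv pos ℓ p = (p.1, fl p.2 (inv ℓ)) := by
  rw [F, if_neg h]

open Classical in
theorem F_pos {ℓ : L} (h : pos ℓ) (p : V × (L → Bool)) :
    F X lab inv pos ℓ p = (mv X lab (dir inv ℓ (p.2 ℓ)) p.1,
      if Has X lab (dir inv ℓ (p.2 ℓ)) p.1 ∧ inv ℓ ≠ ℓ then fl p.2 ℓ else p.2) := by
  rw [F, if_pos h]

theorem dir_not (hL : Lab X lab inv) (ℓ : L) (b : Bool) : dir inv ℓ (!b) = inv (dir inv ℓ b) := by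
  cases b <;> simp [dir, hL.inv_inv]

theorem F_F (hL : Lab X lab inv) (ℓ : L) : Function.Involutive (F X lab inv pos ℓ) := by
  classical
  intro p
  by_cases h : pos ℓ
  · rw [F_pos h, F_pos h]
    by_cases hh : Has X lab (dir inv ℓ (p.2 ℓ)) p.1
    · by_cases hi : inv ℓ = ℓ
      · have hd : ∀ b, dir inv ℓ b = ℓ := by
          intro b; cases b <;> simp [dir, hi]
        rw [hd] at hh
        have h1 := hL.has_inv_mv hh
        have h2 := hL.mv_inv_mv hh
        rw [hi] at h1 h2
        simp [hd, hi, h2]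
      · simp only [hh, hi, ne_eq, not_false_eq_true, and_self, if_true]
        rw [fl_same, hL.dir_not, hL.mv_inv_mv hh, if_pos ⟨hL.has_inv_mv hh, trivial⟩, fl_fl]
    · simp only [hh, false_and, if_false]
      rw [mv_not hh]
      simp only [hh, false_and, if_false]
      rw [mv_not hh]
  · rw [F_neg h, F_neg h, fl_fl]

theorem com_dir (hL : Lab X lab inv) {ℓ m : L} (h : Com X lab ℓ m) (b c : Bool) :
    Com X lab (dir inv ℓ b) (dir inv m c) := by
  cases b <;> cases c <;> simp only [dir, if_true, if_false, Bool.false_eq_true]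
  · exact h
  · exact com_symm (com_inv hL (com_symm h))
  · exact com_inv hL h
  · exact com_inv hL (com_symm (com_inv hL (com_symm h)))

theorem F_comm (hL : Lab X lab inv) {ℓ m : L} (h : Com X lab ℓ m) (p : V × (L → Bool)) :
    F X lab inv pos ℓ (F X lab inv pos m p) = F X lab inv pos m (F X lab inv pos ℓ p) := by
  classical
  obtain ⟨x, ε⟩ := p
  have h0 := hL.com_ne h
  have h1 := hL.com_ne_inv h
  have h2 : ℓ ≠ inv m := fun e => hL.com_ne_inv (com_symm h) e.symm
  by_cases hℓ : pos ℓ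
  · by_cases hm : pos m
    · have hd := hL.com_dir h (ε ℓ) (ε m)
      rw [F_pos hm, F_pos hℓ, F_pos hℓ, F_pos hm]
      simp only
      have e1 : (if Has X lab (dir inv m (ε m)) x ∧ inv m ≠ m then fl ε m else ε) ℓ = ε ℓ := by
        split_ifs
        · exact fl_ne _ h0
        · rfl
      have e2 : (if Has X lab (dir inv ℓ (ε ℓ)) x ∧ inv ℓ ≠ ℓ then fl ε ℓ else ε) m = ε m := by
        split_ifs
        · exact fl_ne _ (Ne.symm h0)
        · rfl
      rw [e1, e2, hL.has_mv hd, hL.has_mv (com_symm hd), hL.mv_comm hd]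
      congr 1
      by_cases c1 : Has X lab (dir inv ℓ (ε ℓ)) x ∧ inv ℓ ≠ ℓ
      · by_cases c2 : Has X lab (dir inv m (ε m)) x ∧ inv m ≠ m
        · simp only [c1, c2, if_true, ne_eq, not_false_eq_true, and_self]
          exact fl_comm _ _ _
        · rw [if_pos c1, if_neg c2, if_pos c1, if_neg c2]
      · by_cases c2 : Has X lab (dir inv m (ε m)) x ∧ inv m ≠ m
        · rw [if_neg c1, if_pos c2, if_neg c1, if_pos c2]
        · rw [if_neg c1, if_neg c2, if_neg c1, if_neg c2]
    · rw [F_neg hm, F_pos hℓ, F_pos hℓ, F_neg hm]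
      simp only
      rw [fl_ne _ h2]
      congr 1
      split_ifs
      · exact fl_comm _ _ _
      · rfl
  · by_cases hm : pos m
    · rw [F_neg hℓ, F_pos hm, F_neg hℓ, F_pos hm]
      simp only
      rw [fl_ne _ h1.symm]
      congr 1
      split_ifs
      · exact fl_comm _ _ _
      · rfl
    · rw [F_neg hm, F_neg hℓ, F_neg hℓ, F_neg hm]
      simp only
      rw [fl_comm]

/-- a choice of directions -/
theorem exists_pos (hL : Lab X lab inv) : ∃ pos : L → Prop, (∀ ℓ, inv ℓ = ℓ → pos ℓ) ∧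
    ∀ ℓ, inv ℓ ≠ ℓ → (pos ℓ ↔ ¬ pos (inv ℓ)) := by
  classical
  let _ : LinearOrder L := linearOrderOfSTO (WellOrderingRel (α := L))
  refine ⟨fun ℓ => ℓ ≤ inv ℓ, fun ℓ h => h.ge, fun ℓ h => ?_⟩
  show ℓ ≤ inv ℓ ↔ ¬ (inv ℓ ≤ inv (inv ℓ))
  rw [hL.inv_inv, not_le]
  exact ⟨fun h1 => lt_of_le_of_ne h1 (Ne.symm h), fun h1 => h1.le⟩

end Lab

open Classical in
/-- the group element of a label -/
noncomputable def om (inv : L → L) {W : Type} [Group W] (s : L → W) (ℓ : L) : W :=
  if inv ℓ = ℓ then s ℓ else s ℓ * s (inv ℓ)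

/-- **a labelled connected graph embeds in every group with the universal property of the right-angled
Coxeter group** -/
theorem Lab.injective (hL : Lab X lab inv) (hX : X.Connected) {W : Type} [Group W] (s : L → W)
    (hs : ∀ ℓ, s ℓ * s ℓ = 1)
    (huniv : ∀ (H : Type) [Group H] (S : L → H), (∀ ℓ, S ℓ * S ℓ = 1) →
      (∀ ℓ m, Com X lab ℓ m → S ℓ * S m = S m * S ℓ) → ∃ φ : W →* H, ∀ ℓ, φ (s ℓ) = S ℓ)
    (lam : V → W) (hlam : ∀ a b, X.Adj a b → lam b = lam a * om inv s (lab a b)) :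
    Function.Injective lam := by
  classical
  obtain ⟨pos, hp1, hp2⟩ := hL.exists_pos
  let S : L → Equiv.Perm (V × (L → Bool)) := fun ℓ => (Lab.F_F (pos := pos) hL ℓ).toPerm
  have hS : ∀ ℓ p, S ℓ p = Lab.F X lab inv pos ℓ p := fun ℓ p => rfl
  obtain ⟨φ, hφ⟩ := huniv (Equiv.Perm (V × (L → Bool))) S
    (fun ℓ => by
      ext1 p
      rw [Equiv.Perm.mul_apply, hS, hS, Lab.F_F hL ℓ p]
      rfl)
    (fun ℓ m h => by
      ext1 p
      rw [Equiv.Perm.mul_apply, Equiv.Perm.mul_apply, hS, hS, hS, hS, hL.F_comm h])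
  have key : ∀ a b, X.Adj a b →
      φ (om inv s (lab a b))⁻¹ (a, fun _ => false) = (b, fun _ => false) := by
    intro a b hab
    by_cases hi : inv (lab a b) = lab a b
    · rw [om, if_pos hi, inv_eq_of_mul_eq_one_left (hs _), hφ, hS, Lab.F_pos (hp1 _ hi)]
      simp only [Lab.dir, Bool.false_eq_true, if_false]
      rw [hL.mv_eq hab, if_neg (fun h => h.2 hi)]
    · have e1 : (om inv s (lab a b))⁻¹ = s (inv (lab a b)) * s (lab a b) := by
        rw [om, if_neg hi, mul_inv_rev, inv_eq_of_mul_eq_one_left (hs _),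
          inv_eq_of_mul_eq_one_left (hs _)]
      rw [e1, map_mul, hφ, hφ, Equiv.Perm.mul_apply, hS, hS]
      have hh : Lab.Has X lab (lab a b) a := ⟨b, hab, rfl⟩
      have hi' : inv (inv (lab a b)) ≠ inv (lab a b) := by
        rw [hL.inv_inv]; exact fun h => hi h.symm
      by_cases hpos : pos (lab a b)
      · have hneg : ¬ pos (inv (lab a b)) := (hp2 _ hi).mp hpos
        rw [Lab.F_pos hpos]
        simp only [Lab.dir, Bool.false_eq_true, if_false]
        rw [hL.mv_eq hab, if_pos ⟨hh, hi⟩, Lab.F_neg hneg]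
        simp only
        rw [hL.inv_inv, Lab.fl_fl]
      · have hp' : pos (inv (lab a b)) := by
          rw [hp2 _ hi', hL.inv_inv]
          exact hpos
        rw [Lab.F_neg hpos, Lab.F_pos hp']
        simp only
        rw [Lab.fl_same]
        simp only [Lab.dir, Bool.not_false, if_true]
        rw [hL.inv_inv, hL.mv_eq hab, if_pos ⟨hh, fun h => hi h.symm⟩, Lab.fl_fl]
  obtain ⟨v₀⟩ := hX.nonempty
  have all : ∀ v, φ ((lam v)⁻¹ * lam v₀) (v₀, fun _ => false) = (v, fun _ => false) := by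
    intro v
    obtain ⟨p⟩ := hX.preconnected v v₀
    induction p with
    | nil => simp
    | @cons a b _ h p ih =>
      have h1 := hlam b a h.symm
      rw [h1, mul_inv_rev, mul_assoc, map_mul, Equiv.Perm.mul_apply, ih]
      exact key b a h.symm
  intro a b hab
  have h1 := all a
  have h2 := all b
  rw [hab, h2] at h1
  exact (congrArg Prod.fst h1).symm

end Pool.Agent.H4.CC
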