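import Mathlib

/-!
# Median graphs: squares, hyperplanes and simple connectivity

Owner helper4.
-/

set_option autoImplicit false

namespace Pool.Agent.H4.CC

variable {V : Type}

/-- the vertex `m` lies between each two of the vertices `a`, `b`, `c` -/
def IsMed (X : SimpleGraph V) (a b c m : V) : Prop :=
  X.dist a m + X.dist m b = X.dist a b ∧ X.dist b m + X.dist m c = X.dist b c ∧
  X.dist a m + X.dist m c = X.dist a c

/-- median graphs, that is the 1-skeletons of CAT(0) cube complexes -/
def Median (X : SimpleGraph V) : Prop := X.Connected ∧ ∀ a b c, ∃! m, IsMed X a b c m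

/-- `a, b, c, d` is a 4-cycle (the boundary of a square of the cube complex) -/
def Sq (X : SimpleGraph V) (a b c d : V) : Prop :=
  X.Adj a b ∧ X.Adj b c ∧ X.Adj c d ∧ X.Adj d a ∧ a ≠ c ∧ b ≠ d

/-- the oriented edges `p` and `q` are parallel, that is they cross the same hyperplane in the same
direction: the equivalence relation generated by the pairs of opposite edges of squares -/
def Par (X : SimpleGraph V) : V × V → V × V → Prop :=
  Relation.EqvGen (fun p q => Sq X p.1 p.2 q.2 q.1)

namespace Sq

variable {X : SimpleGraph V} {a b c d : V}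

theorem rot (h : Sq X a b c d) : Sq X b c d a :=
  ⟨h.2.1, h.2.2.1, h.2.2.2.1, h.1, h.2.2.2.2.2, h.2.2.2.2.1.symm⟩

theorem flip (h : Sq X a b c d) : Sq X a d c b :=
  ⟨h.2.2.2.1.symm, h.2.2.1.symm, h.2.1.symm, h.1.symm, h.2.2.2.2.1, h.2.2.2.2.2.symm⟩

end Sq

section med

variable {X : SimpleGraph V}

theorem step (hX : Median X) {a b : V} (h : X.Adj a b) (v : V) :
    X.dist v b = X.dist v a + 1 ∨ X.dist v a = X.dist v b + 1 := by
  obtain ⟨m, ⟨h1, h2, h3⟩, -⟩ := hX.2 v a b
  have hab : X.dist a b = 1 := SimpleGraph.dist_eq_one_iff_adj.mpr h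
  rw [hab] at h2
  rcases Nat.eq_zero_or_pos (X.dist a m) with h0 | h0
  · have : a = m := (hX.1.dist_eq_zero_iff).mp h0
    subst this
    left; omega
  · have : X.dist m b = 0 := by omega
    have : m = b := (hX.1.dist_eq_zero_iff).mp this
    subst this
    have := X.dist_comm (u := a) (v := m)
    right; omega

theorem dist_two (hX : Median X) {x y z : V} (hy : X.Adj x y) (hz : X.Adj x z) (hyz : y ≠ z) :
    X.dist y z = 2 := by
  have h1 : X.dist y z ≤ X.dist y x + X.dist x z := hX.1.dist_triangle
  have h2 : X.dist y x = 1 := SimpleGraph.dist_eq_one_iff_adj.mpr hy.symm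
  have h3 : X.dist x z = 1 := SimpleGraph.dist_eq_one_iff_adj.mpr hz
  have h4 : X.dist y z ≠ 0 := fun h => hyz ((hX.1.dist_eq_zero_iff).mp h)
  have h5 := step hX hz y
  omega

/-- the quadrangle condition -/
theorem quad (hX : Median X) {v x y z : V} (hy : X.Adj x y) (hz : X.Adj x z) (hyz : y ≠ z)
    (h : X.dist v y = X.dist v z) :
    ∃ m, X.Adj m y ∧ X.Adj m z ∧ X.dist v y = X.dist v m + 1 := by
  obtain ⟨m, ⟨h1, h2, h3⟩, -⟩ := hX.2 v y z
  have h4 := dist_two hX hy hz hyz
  have h5 := X.dist_comm (u := y) (v := m)
  refine ⟨m, SimpleGraph.dist_eq_one_iff_adj.mp ?_, SimpleGraph.dist_eq_one_iff_adj.mp ?_, ?_⟩ <;>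
    omega

/-- the product of a function along a walk, read backwards -/
def val {W : Type} [Group W] (ω : V → V → W) {v₀ : V} : {u : V} → X.Walk u v₀ → W
  | _, .nil => 1
  | u, .cons (v := w) _ p => val ω p * ω w u

/-- **simple connectivity**: a function on the oriented edges with values in a group whose products
along the two ways around squares agree has a potential -/
theorem potential (hX : Median X) {W : Type} [Group W] (ω : V → V → W)
    (hinv : ∀ a b, X.Adj a b → ω b a = (ω a b)⁻¹)
    (hsq : ∀ a b c d, Sq X a b c d → ω a b * ω b c = ω a d * ω d c) (v₀ : V) :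
    ∃ lam : V → W, lam v₀ = 1 ∧ ∀ a b, X.Adj a b → lam b = lam a * ω a b := by
  classical
  have key : ∀ n : ℕ, ∀ v : V, X.dist v v₀ = n → ∀ p q : X.Walk v v₀,
      p.length = n → q.length = n → val ω p = val ω q := by
    intro n
    induction n with
    | zero =>
      intro v hv p q hp hq
      have : v = v₀ := (hX.1.dist_eq_zero_iff).mp hv
      subst this
      cases p with
      | nil =>
        cases q with
        | nil => rfl
        | cons _ _ => simp at hq
      | cons _ _ => simp at hp
    | succ n ih =>
      intro v hv p q hp hq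
      cases p with
      | nil => simp at hp
      | @cons _ u _ hu p' =>
        cases q with
        | nil => simp at hq
        | @cons _ w _ hw q' =>
          rw [SimpleGraph.Walk.length_cons] at hp hq
          have hp' : p'.length = n := by omega
          have hq' : q'.length = n := by omega
          have du : X.dist u v₀ = n := by
            have h1 := SimpleGraph.dist_le p'
            have h2 := step hX hu v₀
            rw [X.dist_comm (u := v₀) (v := u), X.dist_comm (u := v₀) (v := v)] at h2
            omega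
          have dw : X.dist w v₀ = n := by
            have h1 := SimpleGraph.dist_le q'
            have h2 := step hX hw v₀
            rw [X.dist_comm (u := v₀) (v := w), X.dist_comm (u := v₀) (v := v)] at h2
            omega
          rw [val, val]
          by_cases huw : u = w
          · subst huw
            rw [ih u du p' q' hp' hq']
          · obtain ⟨m, hm1, hm2, hm3⟩ := quad hX (v := v₀) hu hw huw (by
              rw [X.dist_comm (u := v₀) (v := u), X.dist_comm (u := v₀) (v := w), du, dw])
            obtain ⟨r, hr⟩ := hX.1.exists_walk_length_eq_dist m v₀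
            have dm : X.dist m v₀ + 1 = n := by
              rw [X.dist_comm (u := v₀) (v := u), X.dist_comm (u := v₀) (v := m), du] at hm3
              omega
            have e1 := ih u du p' (SimpleGraph.Walk.cons hm1.symm r) hp' (by
              rw [SimpleGraph.Walk.length_cons]; omega)
            have e2 := ih w dw q' (SimpleGraph.Walk.cons hm2.symm r) hq' (by
              rw [SimpleGraph.Walk.length_cons]; omega)
            rw [e1, e2, val, val, mul_assoc, mul_assoc]
            congr 1
            refine hsq m u v w ⟨hm1, hu.symm, hw, hm2.symm, ?_, huw⟩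
            rintro rfl
            omega
  choose gd hgd using fun v => hX.1.exists_walk_length_eq_dist v v₀
  refine ⟨fun v => val ω (gd v), ?_, ?_⟩
  · have h0 : (gd v₀).length = 0 := by rw [hgd, SimpleGraph.dist_self]
    show val ω (gd v₀) = 1
    exact key 0 v₀ SimpleGraph.dist_self (gd v₀) SimpleGraph.Walk.nil h0 rfl
  · have up : ∀ a b, X.Adj a b → X.dist b v₀ = X.dist a v₀ + 1 → val ω (gd b) = val ω (gd a) * ω a b := by
      intro a b hab h
      have := key (X.dist b v₀) b rfl (gd b) (SimpleGraph.Walk.cons hab.symm (gd a)) (hgd b)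
        (by rw [SimpleGraph.Walk.length_cons, hgd, h])
      rw [this, val]
    intro a b hab
    have h2 := step hX hab v₀
    rw [X.dist_comm (u := v₀) (v := a), X.dist_comm (u := v₀) (v := b)] at h2
    rcases h2 with h | h
    · exact up a b hab h
    · have := up b a hab.symm h
      show val ω (gd b) = val ω (gd a) * ω a b
      rw [this, hinv a b hab]
      simp

/-! ### hyperplanes -/

/-- the sides of an edge are the sides of the opposite edge -/
theorem sq_side (hX : Median X) {a b c d : V} (h : Sq X a b c d) (v : V) :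
    X.dist v a < X.dist v b → X.dist v d < X.dist v c := by
  intro hv
  by_contra hcon
  obtain ⟨hab, hbc, hcd, hda, hac, hbd⟩ := h
  have s1 := step hX hab v
  have s2 := step hX hbc v
  have s3 := step hX hcd v
  have s4 := step hX hda v
  have e1 : X.dist v a = X.dist v c := by omega
  have e2 : X.dist v b = X.dist v a + 1 := by omega
  have e3 : X.dist v d = X.dist v a + 1 := by omega
  obtain ⟨m, hm1, hm2, hm3⟩ := quad hX (v := v) hab.symm hbc hac e1
  -- `a` and `c` are medians of `b`, `d`, `m`
  have hbm : b ≠ m := by rintro rfl; omega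
  have hdm : d ≠ m := by rintro rfl; omega
  have d1 : ∀ {p q : V}, X.Adj p q → X.dist p q = 1 := fun h => SimpleGraph.dist_eq_one_iff_adj.mpr h
  have dbd := dist_two hX hab hda.symm hbd
  have dbm := dist_two hX hab hm1.symm hbm
  have ddm := dist_two hX hda.symm hm1.symm hdm
  refine hac ((hX.2 b d m).unique (y₁ := a) (y₂ := c) ⟨?_, ?_, ?_⟩ ⟨?_, ?_, ?_⟩)
  · rw [d1 hab.symm, d1 hda.symm, dbd]
  · rw [d1 hda, d1 hm1.symm, ddm]
  · rw [d1 hab.symm, d1 hm1.symm, dbm]
  · rw [d1 hbc, d1 hcd, dbd]
  · rw [d1 hcd.symm, d1 hm2.symm, ddm]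
  · rw [d1 hbc, d1 hm2.symm, dbm]

theorem par_side (hX : Median X) {p q : V × V} (h : Par X p q) (v : V) :
    X.dist v p.1 < X.dist v p.2 ↔ X.dist v q.1 < X.dist v q.2 := by
  induction h with
  | rel p q h =>
    refine ⟨sq_side hX h v, sq_side hX (a := q.1) (b := q.2) (c := p.2) (d := p.1) ?_ v⟩
    exact h.flip.rot.rot.rot.flip.rot.rot.flip
  | refl p => exact Iff.rfl
  | symm p q _ ih => exact ih.symm
  | trans p q r _ _ ih1 ih2 => exact ih1.trans ih2

/-- hyperplanes of median graphs do not osculate themselves -/
theorem osc1 (hX : Median X) {x y z : V} (hy : X.Adj x y) (hz : X.Adj x z)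
    (h : Par X (x, y) (x, z)) : y = z := by
  have h1 := par_side hX h y
  have d1 : X.dist y x = 1 := SimpleGraph.dist_eq_one_iff_adj.mpr hy.symm
  have d0 : X.dist y y = 0 := SimpleGraph.dist_self
  have h2 := step hX hz y
  have h3 : X.dist y z = 0 := by
    simp only at h1
    omega
  exact (hX.1.dist_eq_zero_iff).mp h3

/-- hyperplanes of median graphs which cross do not osculate -/
theorem osc2 (hX : Median X) {x y z : V} (hy : X.Adj x y) (hz : X.Adj x z) {a b c d : V}
    (h : Sq X a b c d) (h1 : Par X (a, b) (x, y)) (h2 : Par X (a, d) (x, z)) :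
    ∃ u, Sq X x y u z := by
  have hyz : y ≠ z := by
    rintro rfl
    exact h.2.2.2.2.2 (osc1 hX h.1 h.2.2.2.1.symm (h1.trans _ _ _ (h2.symm _ _)))
  have e1 := par_side hX h1 c
  have e2 := par_side hX h2 c
  simp only at e1 e2
  have s1 := step hX hy c
  have s2 := step hX hz c
  have dcb : X.dist c b = 1 := SimpleGraph.dist_eq_one_iff_adj.mpr h.2.1.symm
  have dcd : X.dist c d = 1 := SimpleGraph.dist_eq_one_iff_adj.mpr h.2.2.1
  have dca : X.dist c a ≠ 0 := fun e => h.2.2.2.2.1 ((hX.1.dist_eq_zero_iff).mp e).symm
  obtain ⟨m, hm1, hm2, hm3⟩ := quad hX (v := c) hy hz hyz (by omega)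
  refine ⟨m, hy, hm1.symm, hm2, hz.symm, ?_, hyz⟩
  rintro rfl
  omega

end med

end Pool.Agent.H4.CC
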