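import Pool.Agent.H4.CC.Act

/-!
# Actions on median graphs with coloured hyperplanes and actions on trees

Owner helper4.
-/

set_option autoImplicit false

namespace Pool.Agent.H4.CC

variable {V G : Type} [Group G] [MulAction G V] {X : SimpleGraph V}

/-- A colouring of the hyperplanes which is invariant under the group, such that hyperplanes which cross
have different colours; the edge from `x` to `y` has the colour `cl x y`. -/
structure Colouring (G : Type) {V : Type} [Group G] [MulAction G V] (X : SimpleGraph V) {U : Type}
    (cl : V → V → U) : Prop where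
  symm : ∀ a b : V, cl b a = cl a b
  opp : ∀ a b c d : V, Sq X a b c d → cl a b = cl d c
  cross : ∀ a b c d : V, Sq X a b c d → cl a b ≠ cl a d
  inv : ∀ (g : G) (a b : V), cl (g • a) (g • b) = cl a b

section ladder

theorem lad (hX : Median X) {a b : V} (hab : X.Adj a b) : ∀ (n : ℕ) (x y : V), X.dist a x = n →
    X.Adj x y → X.dist x a < X.dist x b → ¬ X.dist y a < X.dist y b → Par X (a, b) (x, y) := by
  intro n
  induction n with
  | zero =>
    intro x y hx hxy h1 h2
    have hax : a = x := (hX.1.dist_eq_zero_iff).mp hx
    subst hax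
    have hy : y = b := by
      have s1 := step hX hab y
      have d1 : X.dist y a = 1 := SimpleGraph.dist_eq_one_iff_adj.mpr hxy.symm
      have : X.dist y b = 0 := by omega
      exact (hX.1.dist_eq_zero_iff).mp this
    subst hy
    exact Relation.EqvGen.refl _
  | succ n ih =>
    intro x y hx hxy h1 h2
    obtain ⟨m, x', hsq, hx', e1, e2⟩ : ∃ m x', Sq X x x' m y ∧ X.dist a x' = n ∧
        X.dist x' a < X.dist x' b ∧ ¬ X.dist m a < X.dist m b := by
      -- the neighbour `x'` of `x` which is closer to `a`
      obtain ⟨p, hp⟩ := hX.1.exists_walk_length_eq_dist x a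
      rw [X.dist_comm (u := x) (v := a), hx] at hp
      cases p with
      | nil => simp at hp
      | @cons _ x' _ hxx' p =>
        rw [SimpleGraph.Walk.length_cons] at hp
        have hx'a : X.dist x' a ≤ n := by
          have := SimpleGraph.dist_le p
          omega
        have s1 := step hX hxx' a
        have s2 := step hX hxy a
        have s3 := step hX hxx' b
        have s4 := step hX hxy b
        have s5 := step hX hab x
        have s6 := step hX hab y
        have s7 := step hX hab x'
        have c1 := X.dist_comm (u := x') (v := a)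
        have c2 := X.dist_comm (u := x') (v := b)
        have c3 := X.dist_comm (u := x) (v := a)
        have c4 := X.dist_comm (u := x) (v := b)
        have c5 := X.dist_comm (u := y) (v := a)
        have c6 := X.dist_comm (u := y) (v := b)
        have hne : x' ≠ y := by rintro rfl; omega
        obtain ⟨m, hm1, hm2, hm3⟩ := quad hX (v := b) hxx' hxy hne (by omega)
        have s8 := step hX hab m
        have s9 := step hX hm2 a
        have c7 := X.dist_comm (u := m) (v := a)
        have c8 := X.dist_comm (u := m) (v := b)
        refine ⟨m, x', ⟨hxx', hm1.symm, hm2, hxy.symm, ?_, hne⟩, by omega, by omega, by omega⟩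
        rintro rfl
        omega
    exact (ih x' m hx' hsq.2.1 e1 e2).trans _ _ _ (Relation.EqvGen.rel _ _ hsq.rot)

variable {U : Type} {cl : V → V → U}

theorem Colouring.par (hc : Colouring G X cl) {p q : V × V} (h : Par X p q) :
    cl p.1 p.2 = cl q.1 q.2 := by
  induction h with
  | rel p q h => exact hc.opp _ _ _ _ h
  | refl p => rfl
  | symm p q _ ih => exact ih.symm
  | trans p q r _ _ ih1 ih2 => exact ih1.trans ih2

/-- the vertices `x` and `y` are joined by a walk whose edges have colours in `J` -/
def Rel (X : SimpleGraph V) (cl : V → V → U) (J : Set U) : V → V → Prop :=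
  Relation.ReflTransGen (fun x y => X.Adj x y ∧ cl x y ∈ J)

theorem Rel.symm (hc : Colouring G X cl) {J : Set U} {x y : V} (h : Rel X cl J x y) :
    Rel X cl J y x := by
  induction h with
  | refl => exact Relation.ReflTransGen.refl
  | tail _ h ih => exact Relation.ReflTransGen.head ⟨h.1.symm, (hc.symm _ _).symm ▸ h.2⟩ ih

theorem Rel.mono {J J' : Set U} (hJ : J ⊆ J') {x y : V} (h : Rel X cl J x y) :
    Rel X cl J' x y := by
  induction h with
  | refl => exact Relation.ReflTransGen.refl
  | tail _ h ih => exact ih.tail ⟨h.1, hJ h.2⟩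

theorem Rel.smul (hact : Acts G X) (hc : Colouring G X cl) {J : Set U} (g : G) {x y : V}
    (h : Rel X cl J x y) : Rel X cl J (g • x) (g • y) := by
  induction h with
  | refl => exact Relation.ReflTransGen.refl
  | tail _ h ih => exact ih.tail ⟨hact g _ _ h.1, (hc.inv g _ _).symm ▸ h.2⟩

/-- walks cross the hyperplanes which separate their ends -/
theorem sepw (hX : Median X) (hc : Colouring G X cl) {a b : V} (hab : X.Adj a b) {J : Set U}
    (hJ : cl a b ∉ J) {x y : V} (h : Rel X cl J x y) :
    X.dist x a < X.dist x b ↔ X.dist y a < X.dist y b := by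
  induction h with
  | refl => exact Iff.rfl
  | @tail y z _ h ih =>
    rw [ih]
    constructor
    · intro h1
      by_contra h2
      exact hJ ((hc.par (lad hX hab _ y z rfl h.1 h1 h2)).symm ▸ h.2)
    · intro h1
      by_contra h2
      have := hc.par (lad hX hab _ z y rfl h.1.symm h1 h2)
      simp only at this
      rw [hc.symm y z] at this
      exact hJ (this.symm ▸ h.2)

/-- the ladder between two parallel edges -/
theorem lad2 (hX : Median X) (hc : Colouring G X cl) {a b : V} (hab : X.Adj a b) {J : Set U}
    (hJ : cl a b ∉ J) : ∀ (n : ℕ) (x y : V), X.dist a x = n →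
    X.Adj x y → X.dist x a < X.dist x b → ¬ X.dist y a < X.dist y b →
    Rel X cl (insert (cl a b) J) a x → Rel X cl J a x ∧ Rel X cl J b y := by
  intro n
  induction n with
  | zero =>
    intro x y hx hxy h1 h2 _
    have hax : a = x := (hX.1.dist_eq_zero_iff).mp hx
    subst hax
    have hy : y = b := by
      have s1 := step hX hab y
      have d1 : X.dist y a = 1 := SimpleGraph.dist_eq_one_iff_adj.mpr hxy.symm
      have : X.dist y b = 0 := by omega
      exact (hX.1.dist_eq_zero_iff).mp this
    subst hy
    exact ⟨Relation.ReflTransGen.refl, Relation.ReflTransGen.refl⟩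
  | succ n ih =>
    intro x y hx hxy h1 h2 hr
    have hpar := hc.par (lad hX hab _ x y hx hxy h1 h2)
    obtain ⟨m, x', hsq, hx', e1, e2⟩ : ∃ m x', Sq X x x' m y ∧ X.dist a x' = n ∧
        X.dist x' a < X.dist x' b ∧ ¬ X.dist m a < X.dist m b := by
      obtain ⟨p, hp⟩ := hX.1.exists_walk_length_eq_dist x a
      rw [X.dist_comm (u := x) (v := a), hx] at hp
      cases p with
      | nil => simp at hp
      | @cons _ x' _ hxx' p =>
        rw [SimpleGraph.Walk.length_cons] at hp
        have hx'a : X.dist x' a ≤ n := by
          have := SimpleGraph.dist_le p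
          omega
        have s1 := step hX hxx' a
        have s2 := step hX hxy a
        have s3 := step hX hxx' b
        have s4 := step hX hxy b
        have s5 := step hX hab x
        have s6 := step hX hab y
        have s7 := step hX hab x'
        have c1 := X.dist_comm (u := x') (v := a)
        have c2 := X.dist_comm (u := x') (v := b)
        have c3 := X.dist_comm (u := x) (v := a)
        have c4 := X.dist_comm (u := x) (v := b)
        have c5 := X.dist_comm (u := y) (v := a)
        have c6 := X.dist_comm (u := y) (v := b)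
        have hne : x' ≠ y := by rintro rfl; omega
        obtain ⟨m, hm1, hm2, hm3⟩ := quad hX (v := b) hxx' hxy hne (by omega)
        have s8 := step hX hab m
        have s9 := step hX hm2 a
        have c7 := X.dist_comm (u := m) (v := a)
        have c8 := X.dist_comm (u := m) (v := b)
        refine ⟨m, x', ⟨hxx', hm1.symm, hm2, hxy.symm, ?_, hne⟩, by omega, by omega, by omega⟩
        rintro rfl
        omega
    -- the colour of the rails
    have hcol : cl x' x ∈ insert (cl a b) J := by
      by_contra hcon
      have := sepw hX hc hsq.1.symm hcon hr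
      have d0 : X.dist x x = 0 := SimpleGraph.dist_self
      have d1 : X.dist x x' = 1 := SimpleGraph.dist_eq_one_iff_adj.mpr hsq.1
      omega
    have hcol' : cl x' x ∈ J := by
      rcases hcol with hcol | hcol
      · exfalso
        refine hc.cross _ _ _ _ hsq ?_
        rw [← hpar, ← hcol]
        exact hc.symm _ _
      · exact hcol
    have hcol2 : cl m y = cl x' x := hc.opp _ _ _ _ hsq.rot.rot
    have hr' : Rel X cl (insert (cl a b) J) a x' :=
      hr.tail ⟨hsq.1, Or.inr (by rw [hc.symm x' x]; exact hcol')⟩
    obtain ⟨r1, r2⟩ := ih x' m hx' hsq.2.1 e1 e2 hr'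
    exact ⟨r1.tail ⟨hsq.1.symm, hcol'⟩, r2.tail ⟨hsq.2.2.1, hcol2 ▸ hcol'⟩⟩

end ladder

section tree

variable {U : Type} {cl : V → V → U}

theorem Rel.equiv (hc : Colouring G X cl) (J : Set U) : Equivalence (Rel X cl J) where
  refl _ := Relation.ReflTransGen.refl
  symm h := Rel.symm hc h
  trans h h' := Relation.ReflTransGen.trans h h'

/-- the stabilizer of the set of the vertices joined with `x` by walks with colours in `J` -/
def stabJ (hact : Acts G X) (hc : Colouring G X cl) (J : Set U) (x : V) : Subgroup G where
  carrier := {g | Rel X cl J x (g • x)}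
  one_mem' := by
    show Rel X cl J x ((1 : G) • x)
    rw [one_smul]
    exact Relation.ReflTransGen.refl
  mul_mem' := by
    intro a b ha hb
    show Rel X cl J x ((a * b) • x)
    rw [mul_smul]
    exact Relation.ReflTransGen.trans ha (Rel.smul hact hc a hb)
  inv_mem' := by
    intro a ha
    show Rel X cl J x (a⁻¹ • x)
    have := Rel.smul hact hc a⁻¹ ha
    rw [inv_smul_smul] at this
    exact Rel.symm hc this

/-- the region of `x` -/
def Reg (X : SimpleGraph V) (cl : V → V → U) (J : Set U) (x : V) : Type := {y : V // Rel X cl J x y}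

instance (hact : Acts G X) (hc : Colouring G X cl) (J : Set U) (x : V) :
    MulAction (stabJ hact hc J x) (Reg X cl J x) where
  smul g y := ⟨(g : G) • y.1, Relation.ReflTransGen.trans g.2 (Rel.smul hact hc g.1 y.2)⟩
  one_smul y := Subtype.ext (one_smul G y.1)
  mul_smul a b y := Subtype.ext (mul_smul a.1 b.1 y.1)

/-- the smaller regions in a region -/
def rset (hc : Colouring G X cl) (J J' : Set U) (x : V) : Setoid (Reg X cl J' x) where
  r y z := Rel X cl J y.1 z.1
  iseqv := ⟨fun y => (Rel.equiv hc J).refl y.1, fun h => (Rel.equiv hc J).symm h,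
    fun h h' => (Rel.equiv hc J).trans h h'⟩

/-- the vertices of the tree -/
def TV (hc : Colouring G X cl) (J J' : Set U) (x : V) : Type := Quotient (rset hc J J' x)

instance (hact : Acts G X) (hc : Colouring G X cl) (J J' : Set U) (x : V) :
    MulAction (stabJ hact hc J' x) (TV hc J J' x) where
  smul g := Quotient.map (fun y => g • y) (fun _ _ h => Rel.smul hact hc g.1 h)
  one_smul := by
    rintro ⟨y⟩
    exact congrArg (Quotient.mk (rset hc J J' x)) (one_smul _ y)
  mul_smul a b := by
    rintro ⟨y⟩
    exact congrArg (Quotient.mk (rset hc J J' x)) (mul_smul a b y)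

/-- adjacent regions: there is an edge of colour `i` between them -/
def tadj (hc : Colouring G X cl) (i : U) (J : Set U) (x : V) (s t : TV hc J (insert i J) x) : Prop :=
  ∃ y z : Reg X cl (insert i J) x, Quotient.mk (rset hc J (insert i J) x) y = s ∧
    Quotient.mk (rset hc J (insert i J) x) z = t ∧ X.Adj y.1 z.1 ∧ cl y.1 z.1 = i

/-- the tree of the regions -/
def tree (hX : Median X) (hc : Colouring G X cl) {i : U} {J : Set U} (hi : i ∉ J) (x : V) :
    SimpleGraph (TV hc J (insert i J) x) where
  Adj s t := tadj hc i J x s t
  symm := ⟨by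
    rintro s t ⟨y, z, h1, h2, h3, h4⟩
    exact ⟨z, y, h2, h1, h3.symm, (hc.symm _ _).trans h4⟩⟩
  loopless := ⟨by
    rintro s ⟨y, z, h1, h2, h3, h4⟩
    have hyz : Rel X cl J y.1 z.1 := Quotient.exact (h1.trans h2.symm)
    have := sepw hX hc h3 (J := J) (by rw [h4]; exact hi) hyz
    have d0 : X.dist y.1 y.1 = 0 := SimpleGraph.dist_self
    have d1 : X.dist y.1 z.1 = 1 := SimpleGraph.dist_eq_one_iff_adj.mpr h3
    have d2 : X.dist z.1 z.1 = 0 := SimpleGraph.dist_self
    omega⟩

theorem tree_adj_eq (hX : Median X) (hc : Colouring G X cl) {i : U} {J : Set U} (hi : i ∉ J) (x : V)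
    {y z u v : Reg X cl (insert i J) x} (h : X.Adj y.1 z.1) (hi' : cl y.1 z.1 = i)
    (huv : X.Adj u.1 v.1) (h1 : X.dist u.1 y.1 < X.dist u.1 z.1)
    (h2 : ¬ X.dist v.1 y.1 < X.dist v.1 z.1) :
    Rel X cl J y.1 u.1 ∧ Rel X cl J z.1 v.1 := by
  refine lad2 hX hc h (J := J) (by rw [hi']; exact hi) _ u.1 v.1 rfl huv h1 h2 ?_
  rw [hi']
  exact (Rel.equiv hc _).trans ((Rel.equiv hc _).symm y.2) u.2

theorem tree_isTree (hX : Median X) (hc : Colouring G X cl) {i : U} {J : Set U} (hi : i ∉ J) (x : V) :
    (tree hX hc hi x).IsTree := by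
  classical
  have h0 : ∀ p q : TV hc J (insert i J) x, p = q → (tree hX hc hi x).Reachable p q := by
    rintro p _ rfl
    exact SimpleGraph.Reachable.refl _
  refine ⟨?_, ?_⟩
  · -- connected
    have key : ∀ y (hy : Rel X cl (insert i J) x y), (tree hX hc hi x).Reachable
        (Quotient.mk (rset hc J (insert i J) x) ⟨x, Relation.ReflTransGen.refl⟩)
        (Quotient.mk (rset hc J (insert i J) x) ⟨y, hy⟩) := by
      intro y hy
      induction hy with
      | refl => exact SimpleGraph.Reachable.refl _
      | @tail u v hu huv ih =>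
        refine ih.trans ?_
        rcases huv.2 with h | h
        · exact SimpleGraph.Adj.reachable ⟨⟨u, hu⟩, ⟨v, hu.tail huv⟩, rfl, rfl, huv.1, h⟩
        · have : Quotient.mk (rset hc J (insert i J) x) ⟨u, hu⟩ =
              Quotient.mk (rset hc J (insert i J) x) ⟨v, hu.tail huv⟩ :=
            Quotient.sound (Relation.ReflTransGen.single ⟨huv.1, h⟩ : Rel X cl J u v)
          exact h0 _ _ this
    refine { preconnected := ?_, nonempty := ⟨Quotient.mk _ ⟨x, Relation.ReflTransGen.refl⟩⟩ }
    rintro ⟨y⟩ ⟨z⟩
    exact (key y.1 y.2).symm.trans (key z.1 z.2)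
  · rw [SimpleGraph.isAcyclic_iff_forall_isBridge]
    intro e
    induction e using Sym2.ind with
    | _ s t =>
      intro he
      rw [SimpleGraph.mem_edgeSet] at he
      rw [SimpleGraph.isBridge_iff]
      obtain ⟨a, b, ha, hb, hab, hi'⟩ := he
      intro hr
      -- the side of a region
      let σ : TV hc J (insert i J) x → Prop := Quotient.lift
        (fun y : Reg X cl (insert i J) x => X.dist y.1 a.1 < X.dist y.1 b.1) (by
          intro y z hyz
          exact propext (sepw hX hc hab (J := J) (by rw [hi']; exact hi) hyz))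
      have hσ : ∀ y : Reg X cl (insert i J) x, σ (Quotient.mk _ y) ↔
        X.dist y.1 a.1 < X.dist y.1 b.1 := fun y => Iff.rfl
      have hs : σ s := by
        rw [← ha, hσ, SimpleGraph.dist_self, SimpleGraph.dist_eq_one_iff_adj.mpr hab]
        exact one_pos
      have ht : ¬ σ t := by
        rw [← hb, hσ, SimpleGraph.dist_self]
        omega
      have step' : ∀ p q, ((tree hX hc hi x).deleteEdges {s(s, t)}).Adj p q → σ p → σ q := by
        intro p q hpq hp
        by_contra hq
        rw [SimpleGraph.deleteEdges_adj] at hpq
        obtain ⟨⟨u, v, hu, hv, huv, hi2⟩, hne⟩ := hpq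
        rw [← hu, hσ] at hp
        rw [← hv, hσ] at hq
        obtain ⟨r1, r2⟩ := tree_adj_eq hX hc hi x hab hi' huv hp hq
        have e1 : s = p := by
          rw [← ha, ← hu]
          exact Quotient.sound r1
        have e2 : t = q := by
          rw [← hb, ← hv]
          exact Quotient.sound r2
        apply hne
        rw [e1, e2]
        rfl
      obtain ⟨p⟩ := hr
      have walk : ∀ {p q} (_ : ((tree hX hc hi x).deleteEdges {s(s, t)}).Walk p q),
          σ p → σ q := by
        intro p q w
        induction w with
        | nil => exact id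
        | cons h _ ih => exact fun hp => ih (step' _ _ h hp)
      exact ht (walk p hs)

end tree

end Pool.Agent.H4.CC
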